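import Pool.Agent.H247.SC.Nbhd

/-!
# The closing criterion on arbitrary manifolds, with control of the support
-/

set_option autoImplicit false
set_option linter.unusedSectionVars false

open scoped Manifold ContDiff Topology
open Filter Set Metric

universe u

namespace Pool.Agent.H247.SC

open Pool.Agent.H718R2.G
open Pool.Agent.W564.SC hiding S_LOC S_NBHD S_CL0 S_CL S_PSI

section
variable {n : ℕ} {N : Type u} [TopologicalSpace N] [T2Space N]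
    [ChartedSpace (V n) N] [IsManifold (𝓡 n) ∞ N]

/-- closing at `z` -/
theorem cl0 {r : ℕ∞} (hr : 1 ≤ r) {P : Type} [NormedAddCommGroup P]
    [NormedSpace ℝ P] (H : P → DiffM n N r) (hH : IsFam n N r H) (K : Set N) (hK : IsCompact K)
    (hsupp : ∀ s, ∀ y ∉ K, H s y = H 0 y)
    (χ : OpenPartialHomeomorph N (V n)) (z : N) (hχ : GoodChart n N χ z)
    (U : Set (DiffM n N r)) (hU : IsOpen[strongTop n N r] U) (hHU : H 0 ∈ U) :
    ∃ k : ℕ, (k : ℕ∞) ≤ r ∧ ∃ κ : ℝ, 0 < κ ∧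
      ∀ (s : P) (ρ : ℝ) (m : ℕ), ‖s‖ < κ → 0 < ρ → ρ < κ → 1 ≤ m →
        (H s)^[m] z ∈ χ.source → ‖χ ((H s)^[m] z)‖ < κ * ρ ^ k →
        (∀ i, 0 < i → i < m → (H s)^[i] z ∈ χ.source → 2 * ρ ≤ ‖χ ((H s)^[i] z)‖) →
        ∃ G ∈ U, IsPer G z ∧ ∀ y, H s y ∉ core χ → G y = H s y := by
  obtain ⟨k, hk1, hkr, κ₀, hκ₀, hN⟩ := nbhd hr H hH K hK hsupp χ z hχ U hU hHU
  obtain ⟨C, hC, hB⟩ := Pool.Agent.W271.SC.bump n k hk1
  refine ⟨k, hkr, min (min κ₀ (1 / 4)) (min (κ₀ / C) (1 / (2 * C))), by positivity, ?_⟩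
  intro s ρ m hs hρ hρκ hm hsrc hw hi
  set κ := min (min κ₀ (1 / 4)) (min (κ₀ / C) (1 / (2 * C))) with hκ
  have k1 : κ ≤ κ₀ := (min_le_left _ _).trans (min_le_left _ _)
  have k2 : κ ≤ 1 / 4 := (min_le_left _ _).trans (min_le_right _ _)
  have k3 : κ ≤ κ₀ / C := (min_le_right _ _).trans (min_le_left _ _)
  have k4 : κ ≤ 1 / (2 * C) := (min_le_right _ _).trans (min_le_right _ _)
  have hρk : 0 < ρ ^ k := pow_pos hρ k
  have hρ1 : ρ ≤ 1 := by linarith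
  have hρk' : ρ ^ k ≤ ρ := by
    calc ρ ^ k ≤ ρ ^ 1 := pow_le_pow_of_le_one hρ.le hρ1 hk1
      _ = ρ := pow_one ρ
  have hwρ : ‖χ ((H s)^[m] z)‖ ≤ ρ := by
    refine hw.le.trans ?_
    calc κ * ρ ^ k ≤ 1 * ρ ^ k := by gcongr; linarith
      _ = ρ ^ k := one_mul _
      _ ≤ ρ := hρk'
  obtain ⟨u, hu, huw, hu0⟩ := hB ρ hρ (by linarith) _ hwρ
  have hq : ‖χ ((H s)^[m] z)‖ / ρ ^ k ≤ κ := by
    rw [div_le_iff₀ hρk]; exact hw.le
  have hc1 : C * (‖χ ((H s)^[m] z)‖ / ρ ^ k) ≤ κ₀ := by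
    calc C * (‖χ ((H s)^[m] z)‖ / ρ ^ k) ≤ C * (κ₀ / C) :=
          mul_le_mul_of_nonneg_left (hq.trans k3) hC.le
      _ = κ₀ := by field_simp
  have hc2 : C * (‖χ ((H s)^[m] z)‖ / ρ ^ k) ≤ 1 / 2 := by
    calc C * (‖χ ((H s)^[m] z)‖ / ρ ^ k) ≤ C * (1 / (2 * C)) :=
          mul_le_mul_of_nonneg_left (hq.trans k4) hC.le
      _ = 1 / 2 := by field_simp
  obtain ⟨Θ, hΘ⟩ := Pool.Agent.W428.SC.push n N r χ z hχ u
    (Pool.Agent.W923.SC.small_mono hu hk1 hc2)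
  have hGU := hN s u Θ (lt_of_lt_of_le hs k1) (Pool.Agent.W923.SC.small_mono hu le_rfl hc1) hΘ
  have hG : ∀ y, ((H s).trans Θ) y = Θ (H s y) := fun y => rfl
  refine ⟨(H s).trans Θ, hGU, ⟨m, hm, ?_⟩, fun y hy => ?_⟩
  · have key : ∀ i, i < m → (⇑((H s).trans Θ))^[i] z = (H s)^[i] z := by
      intro i
      induction i with
      | zero => intro _; rfl
      | succ i ih =>
        intro him
        rw [Function.iterate_succ_apply', ih (by omega), hG, ← Function.iterate_succ_apply' (H s)]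
        by_cases hy : (H s)^[i + 1] z ∈ χ.source
        · obtain ⟨a, b⟩ := hΘ.1 _ hy
          rw [hu0 _ (hi (i + 1) (Nat.succ_pos i) him hy), add_zero] at b
          exact χ.injOn a hy b
        · exact hΘ.2 _ hy
    obtain ⟨m', rfl⟩ : ∃ m', m = m' + 1 := ⟨m - 1, by omega⟩
    rw [Function.iterate_succ_apply', key m' (by omega), hG, ← Function.iterate_succ_apply' (H s)]
    obtain ⟨a, b⟩ := hΘ.1 _ hsrc
    rw [huw, add_neg_cancel, ← hχ.zero] at b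
    exact χ.injOn a hχ.src b
  · rw [hG]
    exact push_id hu hΘ hy

/-- a smooth family of diffeomorphisms with support in `core χ` which are translations near `z` -/
theorem psi (r : ℕ∞) (χ : OpenPartialHomeomorph N (V n)) (z : N) (hg : GoodChart n N χ z) :
    ∃ (Ψ : V n → DiffM n N r) (κ : ℝ), 0 < κ ∧ (∀ y, Ψ 0 y = y) ∧
      ContMDiff ((𝓡 n).prod (𝓡 n)) (𝓡 n) r (fun q : V n × N => Ψ q.1 q.2) ∧
      ContMDiff ((𝓡 n).prod (𝓡 n)) (𝓡 n) r (fun q : V n × N => (Ψ q.1).symm q.2) ∧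
      (∀ x : V n, ‖x‖ < κ → ∀ y ∈ χ.source, ‖χ y‖ < 1 / 4 →
        Ψ x y ∈ χ.source ∧ χ (Ψ x y) = χ y + x) ∧
      ∀ x y, y ∉ core χ → Ψ x y = y ∧ (Ψ x).symm y = y := by
  obtain ⟨F, F', κ, hκ0, hκ1, hF, hF', hi, hi', ho, ho', h0, hm⟩ :=
    Pool.Agent.W782.SC.local_family n
  have hA : Metric.closedBall (0 : V n) (1 / 2) ⊆ χ.target :=
    (Metric.closedBall_subset_closedBall (by norm_num)).trans hg.ball
  have hcl : IsClosed (χ.symm '' Metric.closedBall (0 : V n) (1 / 2)) :=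
    ((isCompact_closedBall _ _).image_of_continuousOn
      (χ.continuousOn_symm.mono hA)).isClosed
  have hs := Pool.Agent.W782.SC.tr_smooth hg.mem hA hcl hi hF ho
  have hs' := Pool.Agent.W782.SC.tr_smooth hg.mem hA hcl hi' hF' ho'
  have hr : ((r : ℕ∞) : WithTop ℕ∞) ≤ ∞ := by exact_mod_cast le_top
  have hs1 : ∀ x : V n, ContMDiff (𝓡 n) (𝓡 n) ∞ (Pool.Agent.W782.SC.tr χ F x) := by
    intro x
    exact hs.comp (contMDiff_const.prodMk contMDiff_id)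
  have hs1' : ∀ x : V n, ContMDiff (𝓡 n) (𝓡 n) ∞ (Pool.Agent.W782.SC.tr χ F' x) := by
    intro x
    exact hs'.comp (contMDiff_const.prodMk contMDiff_id)
  refine ⟨fun x => ⟨⟨Pool.Agent.W782.SC.tr χ F x, Pool.Agent.W782.SC.tr χ F' x,
    Pool.Agent.W782.SC.tr_inv hA hi ho x, Pool.Agent.W782.SC.tr_inv hA hi' ho' x⟩,
    (hs1 x).of_le hr, (hs1' x).of_le hr⟩, κ, hκ0, ?_, hs.of_le hr, hs'.of_le hr, ?_, ?_⟩
  · intro y
    change Pool.Agent.W782.SC.tr χ F 0 y = y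
    by_cases hy : y ∈ χ.source
    · rw [Pool.Agent.W782.SC.tr_source hy, h0, χ.left_inv hy]
    · exact Pool.Agent.W782.SC.tr_not_source hy
  · intro x hx y hy hy4
    have h1 : Pool.Agent.W782.SC.tr χ F x y = χ.symm (χ y + x) := by
      rw [Pool.Agent.W782.SC.tr_source hy, hm x _ hx hy4]
    have h2 : χ y + x ∈ χ.target := by
      rw [← hm x _ hx hy4]
      exact Pool.Agent.W782.SC.maps_target hA hi ho (χ.map_source hy)
    change Pool.Agent.W782.SC.tr χ F x y ∈ χ.source ∧ χ (Pool.Agent.W782.SC.tr χ F x y) = χ y + x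
    rw [h1]
    exact ⟨χ.map_target h2, χ.right_inv h2⟩
  · intro x y hy
    exact ⟨Pool.Agent.W782.SC.tr_id (F := F) ho hy, Pool.Agent.W782.SC.tr_id (F := F') ho' hy⟩

open Pool.Agent.W597.SC (conjF conjF_apply conjF_iter isFam_conjF)

/-- The closing criterion: closing with a moved initial point. The perturbation `G` of `H 0` is
supported in `K ∪ core χ ∪ (H 0)⁻¹ (core χ)`. -/
theorem cl {r : ℕ∞} (hr : 1 ≤ r) {P : Type} [NormedAddCommGroup P]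
    [NormedSpace ℝ P] (H : P → DiffM n N r) (hH : IsFam n N r H) (K : Set N) (hK : IsCompact K)
    (hsupp : ∀ s, ∀ y ∉ K, H s y = H 0 y)
    (χ : OpenPartialHomeomorph N (V n)) (z : N) (hχ : GoodChart n N χ z)
    (U : Set (DiffM n N r)) (hU : IsOpen[strongTop n N r] U) (hHU : H 0 ∈ U) :
    ∃ k : ℕ, (k : ℕ∞) ≤ r ∧ ∃ κ : ℝ, 0 < κ ∧
      ∀ (s : P) (z' : N) (ρ : ℝ) (m : ℕ), ‖s‖ < κ → z' ∈ χ.source → ‖χ z'‖ < κ → 0 < ρ →
        ρ < κ → 1 ≤ m →
        (H s)^[m] z' ∈ χ.source → ‖χ ((H s)^[m] z') - χ z'‖ < κ * ρ ^ k →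
        (∀ i, 0 < i → i < m → (H s)^[i] z' ∈ χ.source →
          2 * ρ ≤ ‖χ ((H s)^[i] z') - χ z'‖) →
        ∃ G ∈ U, IsPer G z ∧ ∀ y, y ∉ K → y ∉ core χ → H 0 y ∉ core χ → G y = H 0 y := by
  obtain ⟨Ψ, κ₂, hκ₂, hΨ0, hΨs, hΨi, hΨ, hΨid⟩ := psi r χ z hχ
  have h0 : conjF H Ψ (0 : P × V n) = H 0 := by
    apply Diffeomorph.ext
    intro y
    rw [conjF_apply]
    show (Ψ 0).symm (H 0 (Ψ 0 y)) = H 0 y
    rw [hΨ0]
    apply (Ψ 0).injective
    show Ψ 0 ((Ψ 0).symm (H 0 y)) = Ψ 0 (H 0 y)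
    rw [(Ψ 0).apply_symm_apply, hΨ0]
  have hK' : IsCompact (K ∪ (core χ ∪ (H 0) ⁻¹' core χ)) := by
    refine hK.union ((core_compact hχ).union ?_)
    have h1 : (H 0) ⁻¹' core χ = (H 0).toHomeomorph ⁻¹' core χ := rfl
    rw [h1, (H 0).toHomeomorph.isCompact_preimage]
    exact core_compact hχ
  have hcs : ∀ s y, y ∉ K → y ∉ core χ → H 0 y ∉ core χ → conjF H Ψ s y = H 0 y := by
    intro s y h1 h2 h3
    rw [conjF_apply, (hΨid _ _ h2).1, hsupp _ _ h1, (hΨid _ _ h3).2]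
  have hsupp' : ∀ s, ∀ y ∉ K ∪ (core χ ∪ (H 0) ⁻¹' core χ),
      conjF H Ψ s y = conjF H Ψ (0 : P × V n) y := by
    intro s y hy
    rw [h0]
    exact hcs s y (fun h => hy (Or.inl h)) (fun h => hy (Or.inr (Or.inl h)))
      (fun h => hy (Or.inr (Or.inr h)))
  obtain ⟨k, hk, κ₁, hκ₁, hc⟩ := cl0 hr (conjF H Ψ)
    (isFam_conjF H Ψ hH hΨ0 hΨs hΨi) _ hK' hsupp' χ z hχ U hU (by rw [h0]; exact hHU)
  refine ⟨k, hk, min (min κ₁ κ₂) (1 / 8), by positivity, ?_⟩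
  intro s z' ρ m hs hz' hz'κ hρ hρκ hm hret hclose havoid
  set κ : ℝ := min (min κ₁ κ₂) (1 / 8) with hκdef
  have hκ0 : 0 < κ := by rw [hκdef]; positivity
  have hκ1 : κ ≤ κ₁ := (min_le_left _ _).trans (min_le_left _ _)
  have hκ2 : κ ≤ κ₂ := (min_le_left _ _).trans (min_le_right _ _)
  have hκ8 : κ ≤ 1 / 8 := min_le_right _ _
  set v : V n := χ z' with hv
  have hvκ2 : ‖v‖ < κ₂ := hz'κ.trans_le hκ2
  -- the translation takes `z` to `z'`
  have hzz' : Ψ v z = z' := by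
    have hz4 : ‖χ z‖ < 1 / 4 := by rw [hχ.zero, norm_zero]; norm_num
    obtain ⟨m1, m2⟩ := hΨ v hvκ2 z hχ.src hz4
    apply χ.injOn m1 hz'
    rw [m2, hχ.zero, zero_add]
  -- inverse images
  have hinv : ∀ w ∈ χ.source, ‖χ w - v‖ < 1 / 4 →
      (Ψ v).symm w ∈ χ.source ∧ χ ((Ψ v).symm w) = χ w - v := by
    intro w hw hw4
    have ht : χ w - v ∈ χ.target := by
      apply hχ.ball
      rw [mem_closedBall, dist_zero_right]
      linarith
    have hys : χ.symm (χ w - v) ∈ χ.source := χ.map_target ht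
    have hχy : χ (χ.symm (χ w - v)) = χ w - v := χ.right_inv ht
    obtain ⟨m1, m2⟩ := hΨ v hvκ2 (χ.symm (χ w - v)) hys (by rw [hχy]; exact hw4)
    have e1 : Ψ v (χ.symm (χ w - v)) = w := by
      apply χ.injOn m1 hw
      rw [m2, hχy, sub_add_cancel]
    have e2 : (Ψ v).symm w = χ.symm (χ w - v) := by
      apply (Ψ v).injective
      show Ψ v ((Ψ v).symm w) = Ψ v (χ.symm (χ w - v))
      rw [(Ψ v).apply_symm_apply, e1]
    rw [e2]
    exact ⟨hys, hχy⟩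
  have hit : ∀ i, (conjF H Ψ (s, v))^[i] z = (Ψ v).symm ((H s)^[i] z') := by
    intro i
    rw [conjF_iter]
    show (Ψ v).symm ((H s)^[i] (Ψ v z)) = _
    rw [hzz']
  have hρ8 : ρ < 1 / 8 := hρκ.trans_le hκ8
  have hρk0 : 0 < ρ ^ k := pow_pos hρ k
  have hρk : ρ ^ k ≤ 1 := pow_le_one₀ hρ.le (by linarith)
  have hsmall : ‖χ ((H s)^[m] z') - v‖ < 1 / 4 := by
    have : κ * ρ ^ k ≤ 1 / 8 * 1 := mul_le_mul hκ8 hρk hρk0.le (by norm_num)
    linarith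
  obtain ⟨b1, b2⟩ := hinv _ hret hsmall
  obtain ⟨G, hGU, hGper, hGid⟩ := hc (s, v) ρ m (by
      rw [Prod.norm_def]
      exact max_lt (hs.trans_le hκ1) (hz'κ.trans_le hκ1)) hρ (hρκ.trans_le hκ1) hm
    (by rw [hit]; exact b1)
    (by
      rw [hit, b2]
      exact hclose.trans_le (mul_le_mul_of_nonneg_right hκ1 hρk0.le))
    (by
      intro i hi him hsrc
      rw [hit] at hsrc ⊢
      by_cases h4 : ‖χ ((Ψ v).symm ((H s)^[i] z'))‖ < 1 / 4
      · obtain ⟨m1, m2⟩ := hΨ v hvκ2 _ hsrc h4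
        rw [(Ψ v).apply_symm_apply] at m1 m2
        have := havoid i hi him m1
        rw [m2, add_sub_cancel_right] at this
        exact this
      · push Not at h4
        linarith)
  refine ⟨G, hGU, hGper, fun y h1 h2 h3 => ?_⟩
  have h4 := hcs (s, v) y h1 h2 h3
  rw [hGid y (by rw [h4]; exact h3), h4]

/-- Good charts with small domains exist. -/
theorem gc (z : N) (W : Set N) (hW : W ∈ 𝓝 z) :
    ∃ χ : OpenPartialHomeomorph N (V n), GoodChart n N χ z ∧ χ.source ⊆ W := by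
  obtain ⟨W', hW'W, hW'o, hzW'⟩ := mem_nhds_iff.1 hW
  set φ₀ : OpenPartialHomeomorph N (V n) := chartAt (V n) z with hφ₀
  have hs₀ : z ∈ φ₀.source := mem_chart_source _ z
  have hm₀ : φ₀ ∈ IsManifold.maximalAtlas (𝓡 n) ∞ N := IsManifold.chart_mem_maximalAtlas z
  set φ : OpenPartialHomeomorph N (V n) := φ₀.restr W' with hφ
  have hm : φ ∈ IsManifold.maximalAtlas (𝓡 n) ∞ N :=
    restr_mem_maximalAtlas (contDiffGroupoid ∞ (𝓡 n)) hm₀ hW'o
  have hsrc : φ.source = φ₀.source ∩ W' := by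
    rw [hφ, φ₀.restr_source, hW'o.interior_eq]
  have hs : z ∈ φ.source := by rw [hsrc]; exact ⟨hs₀, hzW'⟩
  have ht : φ z ∈ φ.target := φ.map_source hs
  obtain ⟨ε, hε, hball⟩ := Metric.nhds_basis_closedBall.mem_iff.mp (φ.open_target.mem_nhds ht)
  have h1 : ContDiff ℝ ∞ (fun v : V n => ε⁻¹ • (v - φ z)) := by fun_prop
  have h2 : ContDiff ℝ ∞ (fun w : V n => ε • w + φ z) := by fun_prop
  refine ⟨φ.transHomeomorph (Pool.Agent.W699.SC.hom (φ z) ε hε.ne'), ⟨?_, ?_, ?_, ?_⟩, ?_⟩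
  · apply OpenPartialHomeomorph.mem_maximalAtlas_of_contMDiffOn
    · have : ContMDiffOn (𝓡 n) (𝓡 n) ∞ ((fun v : V n => ε⁻¹ • (v - φ z)) ∘ φ) φ.source :=
        h1.contMDiff.comp_contMDiffOn (contMDiffOn_of_mem_maximalAtlas hm)
      exact this
    · have : ContMDiffOn (𝓡 n) (𝓡 n) ∞ (φ.symm ∘ (fun w : V n => ε • w + φ z))
          ((fun w : V n => ε • w + φ z) ⁻¹' φ.target) :=
        (contMDiffOn_symm_of_mem_maximalAtlas hm).comp h2.contMDiff.contMDiffOn (fun w hw => hw)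
      exact this
  · exact hs
  · change ε⁻¹ • (φ z - φ z) = 0
    rw [sub_self, smul_zero]
  · intro w hw
    change ε • w + φ z ∈ φ.target
    apply hball
    rw [mem_closedBall, dist_eq_norm, add_sub_cancel_right, norm_smul, Real.norm_eq_abs,
      abs_of_pos hε]
    rw [mem_closedBall, dist_zero_right] at hw
    nlinarith
  · intro y hy
    have h3 : y ∈ φ.source := hy
    rw [hsrc] at h3
    exact hW'W h3.2

end

end Pool.Agent.H247.SC
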