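import Pool.Agent.H247.SC.Cut
import Pool.Agent.H247.SC.CL

/-!
# Closing of recurrent families of circles, on arbitrary manifolds
-/

set_option autoImplicit false
set_option linter.unusedSectionVars false

open scoped Manifold ContDiff Topology ComplexConjugate
open Filter Set Metric

universe u

namespace Pool.Agent.H247.SC

open Pool.Agent.H718R2.G
open Pool.Agent.W564.SC hiding S_LOC S_NBHD S_CL0 S_CL S_PSI
open Pool.Agent.W320.SC (Nr ang mv opp norm_mv)

/-- `F` maps the open set `O ≅ D × S¹` into itself and is there of the form `f × id`. -/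
structure Horiz {N : Type*} (F : N → N) (O : Set N) (R : ℝ → N → N) (a : N → ℂ) : Prop where
  maps : ∀ y ∈ O, F y ∈ O
  comm : ∀ t, ∀ y ∈ O, F (R t y) = R t (F y)
  inv : ∀ y ∈ O, a (F y) = a y

/-- `F` can be closed at `z` by perturbations which are supported in `W ∪ F⁻¹ W` and arbitrarily small
in the strong topology. -/
def ClosableIn (n : ℕ) (N : Type*) [TopologicalSpace N] [ChartedSpace (V n) N] (r : ℕ∞)
    (F : DiffM n N r) (z : N) (W : Set N) : Prop :=
  ∀ U : Set (DiffM n N r), IsOpen[strongTop n N r] U → F ∈ U →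
    ∃ G ∈ U, IsPer G z ∧ ∀ y, y ∉ W → F y ∉ W → G y = F y

section
variable {n : ℕ} {N : Type u} [TopologicalSpace N] [T2Space N]
    [ChartedSpace (V n) N] [IsManifold (𝓡 n) ∞ N]
  {O : Set N} {R : ℝ → N → N} {a : N → ℂ}

theorem mul_conj_one {w : ℂ} (hw : ‖w‖ = 1) : w * conj w = 1 := by
  rw [Complex.mul_conj, Complex.normSq_eq_norm_sq, hw]
  norm_num

theorem CircleOn.normalise (h : CircleOn n N O R a) {z : N} (hz : z ∈ O) :
    CircleOn n N O R (fun y => a y * conj (a z)) where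
  isOpen := h.isOpen
  smooth := h.smooth
  maps := h.maps
  zero := h.zero
  add := h.add
  int := h.int
  smooth_a := by
    have h1 : ContDiff ℝ ∞ (fun w : ℂ => w * conj (a z)) := contDiff_id.mul contDiff_const
    exact h1.contMDiff.comp_contMDiffOn h.smooth_a
  norm_a y hy := by
    rw [norm_mul, Complex.norm_conj, h.norm_a y hy, h.norm_a z hz, one_mul]
  equiv t y hy := by
    rw [h.equiv t y hy, mul_assoc]

theorem iter_mem {F : N → N} (hF : Horiz F O R a) {y : N} (hy : y ∈ O) (i : ℕ) : F^[i] y ∈ O := by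
  induction i with
  | zero => exact hy
  | succ i ih => rw [Function.iterate_succ_apply']; exact hF.maps _ ih

theorem iter_comm {F : N → N} (hF : Horiz F O R a) {y : N} (hy : y ∈ O) (t : ℝ) (i : ℕ) :
    F^[i] (R t y) = R t (F^[i] y) := by
  induction i with
  | zero => rfl
  | succ i ih =>
    rw [Function.iterate_succ_apply', Function.iterate_succ_apply', ih, hF.comm _ _ (iter_mem hF hy i)]

theorem iter_inv {F : N → N} (hF : Horiz F O R a) {y : N} (hy : y ∈ O) (i : ℕ) :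
    a (F^[i] y) = a y := by
  induction i with
  | zero => rfl
  | succ i ih => rw [Function.iterate_succ_apply', hF.inv _ (iter_mem hF hy i), ih]

theorem returns (h : CircleOn n N O R a) {F : N → N} (hF : Horiz F O R a) {z : N} (hz : z ∈ O)
    (haz : a z = 1) (hnw : NonWand F z) {W : Set N} (hW : W ∈ 𝓝 z) :
    ∃ m : ℕ, 1 ≤ m ∧ ∃ y ∈ W, y ∈ O ∧ F^[m] y ∈ W ∧ a y = 1 := by
  have hτ : ContinuousAt (fun y => -(Complex.arg (a y) / (2 * Real.pi))) z := by
    have ha : ContinuousAt a z := (h.smooth_a.contMDiffAt (h.isOpen.mem_nhds hz)).continuousAt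
    have h1 : ContinuousAt Complex.arg (a z) := by
      rw [haz]; exact Complex.continuousAt_arg Complex.one_mem_slitPlane
    exact ((ContinuousAt.comp (f := a) (g := Complex.arg) h1 ha).div_const _).neg
  have hRc : ContinuousAt (fun q : ℝ × N => R q.1 q.2) (-(Complex.arg (a z) / (2 * Real.pi)), z) :=
    (h.smooth.contMDiffAt ((isOpen_univ.prod h.isOpen).mem_nhds ⟨mem_univ _, hz⟩)).continuousAt
  have hΦ : Tendsto (fun q : N × N => R (-(Complex.arg (a q.1) / (2 * Real.pi))) q.2) (𝓝 (z, z))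
      (𝓝 z) := by
    have h1 : ContinuousAt (fun q : N × N => (-(Complex.arg (a q.1) / (2 * Real.pi)), q.2)) (z, z) :=
      (ContinuousAt.comp (f := fun q : N × N => q.1)
        (g := fun y => -(Complex.arg (a y) / (2 * Real.pi))) hτ continuousAt_fst).prodMk
        continuousAt_snd
    have h3 : ContinuousAt (fun q : N × N => R (-(Complex.arg (a q.1) / (2 * Real.pi))) q.2) (z, z) :=
      ContinuousAt.comp (f := fun q : N × N => (-(Complex.arg (a q.1) / (2 * Real.pi)), q.2))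
        (g := fun q : ℝ × N => R q.1 q.2) hRc h1
    have h4 : R (-(Complex.arg (a z) / (2 * Real.pi))) z = z := by
      rw [haz, Complex.arg_one, zero_div, neg_zero, h.zero _ hz]
    have h5 := h3.tendsto
    simp only [h4] at h5
    exact h5
  have hev : ∀ᶠ q : N × N in 𝓝 z ×ˢ 𝓝 z, R (-(Complex.arg (a q.1) / (2 * Real.pi))) q.2 ∈ W := by
    rw [← nhds_prod_eq]
    exact hΦ hW
  obtain ⟨W1, hW1, hW1'⟩ := (Filter.eventually_prod_self_iff
    (r := fun y y' : N => R (-(Complex.arg (a y) / (2 * Real.pi))) y' ∈ W)).1 hev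
  obtain ⟨m, hm1, y, hy, hmy⟩ := hnw (W1 ∩ O) (inter_mem hW1 (h.isOpen.mem_nhds hz))
  refine ⟨m, hm1, R (-(Complex.arg (a y) / (2 * Real.pi))) y, hW1' y hy.1 y hy.1,
    h.maps _ _ hy.2, ?_, ?_⟩
  · rw [iter_comm hF hy.2]
    exact hW1' y hy.1 _ hmy.1
  · rw [h.equiv _ _ hy.2]
    have e2 : 2 * Real.pi * Complex.I * ((-(Complex.arg (a y) / (2 * Real.pi)) : ℝ) : ℂ) =
        -(2 * Real.pi * Complex.I * ((Complex.arg (a y) / (2 * Real.pi) : ℝ) : ℂ)) := by
      push_cast
      ring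
    have h4 : a y ≠ 0 := by
      intro h0
      have := h.norm_a y hy.2
      rw [h0, norm_zero] at this
      exact zero_ne_one this
    rw [e2, Complex.exp_neg, exp_arg2 (h.norm_a y hy.2), inv_mul_cancel₀ h4]

/-- the total time spent near the circle -/
noncomputable def Tm (F : N → N) (χ : N → ℝ) (y : N) (i : ℕ) : ℝ :=
  ∑ j ∈ Finset.range i, χ (F^[j] y)

theorem Tm_zero (F : N → N) (χ : N → ℝ) (y : N) : Tm F χ y 0 = 0 := by simp [Tm]

theorem Tm_succ (F : N → N) (χ : N → ℝ) (y : N) (i : ℕ) :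
    Tm F χ y (i + 1) = Tm F χ y i + χ (F^[i] y) := by
  unfold Tm; rw [Finset.sum_range_succ]

theorem Tm_mono (F : N → N) {χ : N → ℝ} (hχ : ∀ y, 0 ≤ χ y) (y : N) {i j : ℕ} (hij : i ≤ j) :
    Tm F χ y i ≤ Tm F χ y j := by
  unfold Tm
  apply Finset.sum_le_sum_of_subset_of_nonneg
  · intro x hx
    rw [Finset.mem_range] at hx ⊢
    omega
  · intro x _ _; exact hχ _

/-- the orbit of `y` under the perturbed map -/
theorem orbit (h : CircleOn n N O R a) {K : Set N} {χ : N → ℝ} (hχ : CutOff n N O R K χ)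
    {r : ℕ∞} {F H : DiffM n N r} (hF : Horiz F O R a) {p : ℝ × ℝ} (hp : ‖p‖ < 1 / 16)
    (hH : ∀ y, H y = F (Kf O R a χ p y)) {G : ℝ → ℂ} (hG0 : G 0 = 1) (hG1 : ∀ t, ‖G t‖ = 1)
    (hG : ∀ t τ : ℝ, al p τ + be p τ * conj (G t) ≠ 0 → mv (al p τ) (be p τ) (G t) = G (t + τ))
    {y : N} (hy : y ∈ O) (hay : a y = 1) (i : ℕ) :
    (∃ T : ℝ, H^[i] y = R T (F^[i] y)) ∧ a (H^[i] y) = G (Tm F χ y i) := by
  induction i with
  | zero =>
    refine ⟨⟨0, ?_⟩, ?_⟩
    · show y = R 0 y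
      rw [h.zero _ hy]
    · show a y = _
      rw [Tm_zero, hG0, hay]
  | succ i ih =>
    obtain ⟨⟨T, hT⟩, hai⟩ := ih
    have hFi := iter_mem hF hy i
    have hyi : H^[i] y ∈ O := by rw [hT]; exact h.maps _ _ hFi
    have hχi : χ (H^[i] y) = χ (F^[i] y) := by rw [hT, hχ.inv _ _ hFi]
    have hab : |χ (F^[i] y)| ≤ 1 := by rw [abs_of_nonneg (hχ.nonneg _)]; exact hχ.le_one _
    rw [Function.iterate_succ_apply', Function.iterate_succ_apply', hH]
    constructor
    · rw [Kf_of_mem hyi]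
      refine ⟨ang (al p (χ (H^[i] y))) (be p (χ (H^[i] y))) (a (H^[i] y)) + T, ?_⟩
      conv_lhs => rw [hT]
      rw [← hT, hT, ← h.add _ _ _ hFi, hF.comm _ _ hFi]
    · rw [hF.inv _ (Kf_mem h hyi), a_Kf h hyi, hai, hχi, Tm_succ]
      apply hG
      intro h0
      have h1 := (nr hp hab).re (hG1 (Tm F χ y i))
      rw [h0] at h1
      simp at h1

/-- radii -/
noncomputable def gr (ρ κ : ℝ) (k : ℕ) : ℕ → ℝ
  | 0 => ρ
  | j + 1 => min (gr ρ κ k j) (κ * (gr ρ κ k j / 2) ^ k)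

theorem gr_pos {ρ κ : ℝ} (hρ : 0 < ρ) (hκ : 0 < κ) (k j : ℕ) : 0 < gr ρ κ k j := by
  induction j with
  | zero => exact hρ
  | succ j ih => exact lt_min ih (by positivity)

theorem gr_succ_le {ρ κ : ℝ} (k j : ℕ) : gr ρ κ k (j + 1) ≤ gr ρ κ k j := min_le_left _ _

theorem gr_le {ρ κ : ℝ} (k j : ℕ) : gr ρ κ k j ≤ ρ := by
  induction j with
  | zero => exact le_rfl
  | succ j ih => exact (gr_succ_le k j).trans ih

theorem gr_anti {ρ κ : ℝ} (k : ℕ) {i j : ℕ} (hij : i ≤ j) : gr ρ κ k j ≤ gr ρ κ k i := by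
  induction j, hij using Nat.le_induction with
  | base => exact le_rfl
  | succ j _ ih => exact (gr_succ_le k j).trans ih

/-- **Closing of circles.** -/
theorem circle_closing_aux {r : ℕ∞} (hr : 1 ≤ r) (h : CircleOn n N O R a) (F : DiffM n N r)
    (hF : Horiz F O R a) {z : N} (hz : z ∈ O) (haz : a z = 1) (hnw : NonWand F z) {W : Set N}
    (hW : IsOpen W) (hzW : ∀ t, R t z ∈ W) : ClosableIn n N r F z W := by
  intro U hU hFU
  obtain ⟨K, χ, hχ, hKW, hχ1⟩ := exists_cutOff h hz haz hW hzW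
  have hzW' : z ∈ W := by have := hzW 0; rwa [h.zero _ hz] at this
  obtain ⟨c, hc, hcs⟩ := gc (n := n) z (W ∩ O ∩ {y | χ y = 1})
    (inter_mem (inter_mem (hW.mem_nhds hzW') (h.isOpen.mem_nhds hz)) hχ1)
  have hcW : core c ⊆ W := fun y hy => (hcs (core_sub hc hy)).1.1
  have hcO : ∀ y ∈ c.source, y ∈ O := fun y hy => (hcs hy).1.2
  have hc1 : ∀ y ∈ c.source, χ y = 1 := fun y hy => (hcs hy).2
  obtain ⟨H, hH0, hHfam, hH, hHK⟩ := fam h hχ r F
  obtain ⟨k, hk, κ, hκ, hCL⟩ := cl hr H hHfam K hχ.compact hHK c z hc U hU (by rw [hH0]; exact hFU)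
  rw [hH0] at hCL
  obtain ⟨δ, M, hδ, hM2, hMO⟩ := moeb (min κ (1 / 16)) (lt_min hκ (by norm_num))
  -- the radius
  obtain ⟨ρ, hρ0, hρκ, hρa⟩ : ∃ ρ : ℝ, 0 < ρ ∧ ρ < κ ∧
      ∀ y ∈ c.source, ‖c y‖ < 3 * ρ → ‖a y - 1‖ < δ := by
    have hac : ContinuousAt a z := (h.smooth_a.contMDiffAt (h.isOpen.mem_nhds hz)).continuousAt
    have hz0 : c.symm (0 : V n) = z := by
      rw [← hc.zero]
      exact c.left_inv hc.src
    have hcc : ContinuousAt (fun x => a (c.symm x)) (0 : V n) := by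
      have h5 : ContinuousAt c.symm (0 : V n) := by
        apply c.continuousAt_symm
        exact hc.ball (mem_closedBall_self (by norm_num))
      exact ContinuousAt.comp (g := a) (f := c.symm) (by rw [hz0]; exact hac) h5
    rw [Metric.continuousAt_iff] at hcc
    obtain ⟨ε, hε, hε2⟩ := hcc δ hδ
    refine ⟨min (ε / 3) (κ / 2), lt_min (by linarith) (by linarith),
      (min_le_right _ _).trans_lt (by linarith), ?_⟩
    intro y hy hy2
    have h5 : ‖c y‖ < ε := by
      have : min (ε / 3) (κ / 2) ≤ ε / 3 := min_le_left _ _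
      linarith
    have h6 := hε2 (x := c y) (by rw [dist_zero_right]; exact h5)
    rw [c.left_inv hy, hz0, dist_eq_norm, haz] at h6
    exact h6
  set L : ℕ := ⌈M⌉₊ with hL
  have hLM : M ≤ L := Nat.le_ceil M
  set g : ℕ → ℝ := gr ρ κ k with hg
  have hg0 : ∀ j, 0 < g j := fun j => gr_pos hρ0 hκ k j
  obtain ⟨ε, hε0, hε1, hε2, hε3⟩ : ∃ ε : ℝ, 0 < ε ∧ ε ≤ ρ ∧ 2 * ε ≤ g L ∧ 2 * ε ≤ κ * ρ ^ k := by
    have h5 : 0 < κ * ρ ^ k / 2 := by positivity
    refine ⟨min (min ρ (g L / 2)) (κ * ρ ^ k / 2), lt_min (lt_min hρ0 (half_pos (hg0 L))) h5,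
      (min_le_left _ _).trans (min_le_left _ _), ?_, ?_⟩
    · have := (min_le_left (min ρ (g L / 2)) (κ * ρ ^ k / 2)).trans (min_le_right _ _)
      linarith
    · have := min_le_right (min ρ (g L / 2)) (κ * ρ ^ k / 2)
      linarith
  have hWε : {y : N | y ∈ c.source ∧ ‖c y‖ < ε} ∈ 𝓝 z := by
    have h5 : c.source ∈ 𝓝 z := c.open_source.mem_nhds hc.src
    have h6 : ContinuousAt (fun y => ‖c y‖) z := (c.continuousAt hc.src).norm
    have h7 : ∀ᶠ y in 𝓝 z, ‖c y‖ < ε := by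
      have h8 : ‖c z‖ < ε := by rw [hc.zero, norm_zero]; exact hε0
      exact h6.eventually_lt_const h8
    filter_upwards [h5, h7] with y hy1 hy2
    exact ⟨hy1, hy2⟩
  obtain ⟨m, hm1, y, ⟨hyc, hyε⟩, hyO, ⟨hmyc, hmyε⟩, hay⟩ := returns h hF hz haz hnw hWε
  have hyκ : ‖c y‖ < κ := by linarith
  have hdm : ‖c (F^[m] y) - c y‖ < 2 * ε := by
    calc ‖c (F^[m] y) - c y‖ ≤ ‖c (F^[m] y)‖ + ‖c y‖ := norm_sub_le _ _
      _ < ε + ε := add_lt_add hmyε hyε
      _ = 2 * ε := by ring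
  -- how a closing time gives the conclusion
  have hfin : (∃ G ∈ U, IsPer G z ∧ ∀ y, y ∉ K → y ∉ core c → F y ∉ core c → G y = F y) →
      ∃ G ∈ U, IsPer G z ∧ ∀ y, y ∉ W → F y ∉ W → G y = F y := by
    rintro ⟨G, hGU, hGp, hGs⟩
    exact ⟨G, hGU, hGp, fun y h1 h2 => hGs y (fun h3 => h1 (hKW h3)) (fun h3 => h1 (hcW h3))
      (fun h3 => h2 (hcW h3))⟩
  apply hfin
  by_contra hno
  -- first returns to the balls of radius `g j`
  have key : ∀ j, j ≤ L → ∃ i, 1 ≤ i ∧ i ≤ m ∧ (F^[i] y ∈ c.source ∧ ‖c (F^[i] y) - c y‖ < g j) ∧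
      (∀ i', 0 < i' → i' < i → F^[i'] y ∈ c.source → g j ≤ ‖c (F^[i'] y) - c y‖) ∧
      (j : ℝ) + 1 ≤ Tm F χ y i := by
    intro j
    induction j with
    | zero =>
      intro _
      classical
      have hex : ∃ i, 1 ≤ i ∧ (F^[i] y ∈ c.source ∧ ‖c (F^[i] y) - c y‖ < g 0) :=
        ⟨m, hm1, hmyc, hdm.trans_le (hε2.trans (gr_anti k (Nat.zero_le L)))⟩
      have hspec := Nat.find_spec hex
      refine ⟨Nat.find hex, hspec.1, Nat.find_min' hex
        ⟨hm1, hmyc, hdm.trans_le (hε2.trans (gr_anti k (Nat.zero_le L)))⟩, hspec.2, ?_, ?_⟩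
      · intro i' h1 h2 h3
        have := Nat.find_min hex h2
        by_contra hcon
        exact this ⟨h1, h3, not_le.1 hcon⟩
      · have h1 : Tm F χ y 1 ≤ Tm F χ y (Nat.find hex) := Tm_mono F hχ.nonneg y hspec.1
        have h2 : Tm F χ y 1 = 1 := by
          rw [Tm_succ, Tm_zero, zero_add]
          exact hc1 y hyc
        rw [h2] at h1
        simpa using h1
    | succ j ih =>
      intro hjL
      obtain ⟨i, hi1, him, hi2, hi3, hi4⟩ := ih (by omega)
      classical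
      have hmm : F^[m] y ∈ c.source ∧ ‖c (F^[m] y) - c y‖ < g (j + 1) :=
        ⟨hmyc, hdm.trans_le (hε2.trans (gr_anti k hjL))⟩
      have hex : ∃ i, 1 ≤ i ∧ (F^[i] y ∈ c.source ∧ ‖c (F^[i] y) - c y‖ < g (j + 1)) :=
        ⟨m, hm1, hmm⟩
      have hspec := Nat.find_spec hex
      have hmin : ∀ i', 0 < i' → i' < Nat.find hex → F^[i'] y ∈ c.source →
          g (j + 1) ≤ ‖c (F^[i'] y) - c y‖ := by
        intro i' h1 h2 h3
        have := Nat.find_min hex h2
        by_contra hcon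
        exact this ⟨h1, h3, not_le.1 hcon⟩
      have hle : i ≤ Nat.find hex := by
        by_contra hcon
        have h5 := hi3 (Nat.find hex) hspec.1 (not_le.1 hcon) hspec.2.1
        have h6 := hspec.2.2.trans_le (gr_succ_le k j)
        exact absurd h6 (not_lt.2 h5)
      rcases hle.eq_or_lt with heq | hlt
      · -- closing
        exfalso
        apply hno
        have h5 : ‖c (F^[i] y) - c y‖ < κ * (g j / 2) ^ k := by
          have := hspec.2.2
          rw [← heq] at this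
          exact this.trans_le (min_le_right _ _)
        have hgj : g j / 2 < κ := by
          have := gr_le (ρ := ρ) (κ := κ) k j
          have h0 := hg0 j
          have h1 : g j ≤ ρ := this
          linarith
        have h7 := hCL 0 y (g j / 2) i (by rw [norm_zero]; exact hκ) hyc hyκ (half_pos (hg0 j)) hgj hi1
        rw [hH0] at h7
        refine h7 hi2.1 h5 ?_
        intro i' h1 h2 h3
        have := hi3 i' h1 h2 h3
        linarith
      · refine ⟨Nat.find hex, hspec.1, Nat.find_min' hex ⟨hm1, hmm⟩, hspec.2, hmin, ?_⟩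
        have h8 : Tm F χ y (i + 1) ≤ Tm F χ y (Nat.find hex) := Tm_mono F hχ.nonneg y hlt
        rw [Tm_succ, hc1 _ hi2.1] at h8
        push_cast
        linarith
  obtain ⟨i, hi1, him, -, -, hi4⟩ := key L le_rfl
  have hS : M ≤ Tm F χ y m := by
    have := Tm_mono F hχ.nonneg y him
    linarith
  obtain ⟨p, G, hpκ, hG0, hGS, hG1, hG, hGδ⟩ := hMO _ hS
  have hp1 : ‖p‖ < κ := hpκ.trans_le (min_le_left _ _)
  have hp2 : ‖p‖ < 1 / 16 := hpκ.trans_le (min_le_right _ _)
  have horb := orbit h hχ hF hp2 (hH p hp2) hG0 hG1 hG hyO hay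
  have hHm : (H p)^[m] y = F^[m] y := by
    obtain ⟨⟨T, hT⟩, hai⟩ := horb m
    rw [hT]
    apply h.eq_of (iter_mem hF hyO m)
    rw [← hT, hai, hGS, iter_inv hF hyO, hay]
  apply hno
  refine hCL p y ρ m hp1 hyc hyκ hρ0 hρκ hm1 ?_ ?_ ?_
  · rw [hHm]
    exact hmyc
  · rw [hHm]
    exact hdm.trans_le hε3
  · intro i hi0 him hic
    by_contra hcon
    push Not at hcon
    have h5 : ‖c ((H p)^[i] y)‖ < 3 * ρ := by
      have h6 : c ((H p)^[i] y) = (c ((H p)^[i] y) - c y) + c y := by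
        rw [sub_add_cancel]
      rw [h6]
      have h7 := norm_add_le (c ((H p)^[i] y) - c y) (c y)
      linarith
    have h6 := hρa _ hic h5
    obtain ⟨⟨T, hT⟩, hai⟩ := horb i
    rw [hai] at h6
    have h7 : χ (F^[i] y) = 1 := by
      have h8 := hc1 _ hic
      rwa [hT, hχ.inv _ _ (iter_mem hF hyO i)] at h8
    have h8 : 1 ≤ Tm F χ y i := by
      have h9 := Tm_mono F hχ.nonneg y (show 1 ≤ i from hi0)
      have h10 : Tm F χ y 1 = 1 := by
        rw [Tm_succ, Tm_zero, zero_add]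
        exact hc1 y hyc
      linarith
    have h9 : Tm F χ y i ≤ Tm F χ y m - 1 := by
      have h10 := Tm_mono F hχ.nonneg y (show i + 1 ≤ m from him)
      rw [Tm_succ, h7] at h10
      linarith
    have := hGδ _ h8 h9
    linarith

/-- **Closing of circles.** Let `O ≅ D × S¹` be an open subset of the manifold `N` on which
`F ∈ Diff^r(N)` is of the form `f × id` and let `z ∈ O` be nonwandering. Then `F` can be closed at `z` by
arbitrarily small perturbations with support near the circle through `z`. -/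
theorem circle_closing {r : ℕ∞} (hr : 1 ≤ r) (h : CircleOn n N O R a) (F : DiffM n N r)
    (hF : Horiz F O R a) {z : N} (hz : z ∈ O) (hnw : NonWand F z) {W : Set N}
    (hW : IsOpen W) (hzW : ∀ t, R t z ∈ W) : ClosableIn n N r F z W := by
  refine circle_closing_aux hr (h.normalise hz) F ⟨hF.maps, hF.comm, fun y hy => ?_⟩ hz
    (mul_conj_one (h.norm_a z hz)) hnw hW hzW
  show a (F y) * _ = a y * _
  rw [hF.inv y hy]

end

end Pool.Agent.H247.SC
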