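import Pool.Agent.H247.SC.Fam

/-!
# Rotation invariant cut-off functions
-/

set_option autoImplicit false
set_option linter.unusedSectionVars false

open scoped Manifold ContDiff Topology ComplexConjugate
open Filter Set Metric

universe u

namespace Pool.Agent.H247.SC

open Pool.Agent.H718R2.G
open Pool.Agent.W564.SC hiding S_LOC S_NBHD S_CL0 S_CL S_PSI

section
variable {n : ℕ} {N : Type u} [TopologicalSpace N] [T2Space N]
    [ChartedSpace (V n) N] [IsManifold (𝓡 n) ∞ N]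
  {O : Set N} {R : ℝ → N → N} {a : N → ℂ}

theorem exp_arg2 {w : ℂ} (hw : ‖w‖ = 1) :
    Complex.exp (2 * Real.pi * Complex.I * ((Complex.arg w / (2 * Real.pi) : ℝ) : ℂ)) = w :=
  Pool.Agent.W54.SC.exp_arg2 w hw

/-- rotation by minus the angle of `w` -/
noncomputable def rot (R : ℝ → N → N) (w : ℂ) (y : N) : N := R (-(Complex.arg w / (2 * Real.pi))) y

theorem rot_eq (h : CircleOn n N O R a) {w : ℂ} (hw : ‖w‖ = 1) {y : N} (hy : y ∈ O) :
    rot R w y = R (-(Complex.arg (-w) / (2 * Real.pi) + 1 / 2)) y := by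
  apply h.congr _ hy
  have e1 : ∀ t : ℝ, Complex.exp (2 * Real.pi * Complex.I * ((-t : ℝ) : ℂ)) =
      (Complex.exp (2 * Real.pi * Complex.I * ((t : ℝ) : ℂ)))⁻¹ := by
    intro t
    rw [← Complex.exp_neg]
    congr 1
    push_cast
    ring
  rw [e1, e1, exp_arg2 hw]
  congr 1
  have e2 : 2 * Real.pi * Complex.I * ((Complex.arg (-w) / (2 * Real.pi) + 1 / 2 : ℝ) : ℂ) =
      2 * Real.pi * Complex.I * ((Complex.arg (-w) / (2 * Real.pi) : ℝ) : ℂ) +
        Real.pi * Complex.I := by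
    push_cast
    ring
  rw [e2, Complex.exp_add, exp_arg2 (by rw [norm_neg]; exact hw), Complex.exp_pi_mul_I]
  ring

/-- projection onto the slice `a = 1` -/
noncomputable def pr (R : ℝ → N → N) (a : N → ℂ) (y : N) : N := rot R (a y) y

theorem pr_mem (h : CircleOn n N O R a) {y : N} (hy : y ∈ O) : pr R a y ∈ O := h.maps _ _ hy

theorem pr_inv (h : CircleOn n N O R a) (t : ℝ) {y : N} (hy : y ∈ O) :
    pr R a (R t y) = pr R a y := by
  unfold pr rot
  rw [← h.add _ _ _ hy]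
  apply h.congr _ hy
  have hn : ‖a (R t y)‖ = 1 := h.norm_a _ (h.maps _ _ hy)
  have h1 := exp_arg2 hn
  have h2 := exp_arg2 (h.norm_a y hy)
  have h3 := h.equiv t y hy
  have e1 : 2 * Real.pi * Complex.I * ((-(Complex.arg (a (R t y)) / (2 * Real.pi)) + t : ℝ) : ℂ) =
      -(2 * Real.pi * Complex.I * ((Complex.arg (a (R t y)) / (2 * Real.pi) : ℝ) : ℂ)) +
        2 * Real.pi * Complex.I * ((t : ℝ) : ℂ) := by
    push_cast
    ring
  have e2 : 2 * Real.pi * Complex.I * ((-(Complex.arg (a y) / (2 * Real.pi)) : ℝ) : ℂ) =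
      -(2 * Real.pi * Complex.I * ((Complex.arg (a y) / (2 * Real.pi) : ℝ) : ℂ)) := by
    push_cast
    ring
  rw [e1, e2, Complex.exp_add, Complex.exp_neg, Complex.exp_neg, h1, h2, h3]
  have h4 : a y ≠ 0 := by
    intro h0
    have := h.norm_a y hy
    rw [h0, norm_zero] at this
    exact zero_ne_one this
  have h5 : Complex.exp (2 * Real.pi * Complex.I * ((t : ℝ) : ℂ)) ≠ 0 := Complex.exp_ne_zero _
  field_simp

theorem pr_of_one (h : CircleOn n N O R a) {y : N} (hy : y ∈ O) (h1 : a y = 1) :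
    pr R a y = y := by
  unfold pr rot
  rw [h1, Complex.arg_one, zero_div, neg_zero, h.zero _ hy]

theorem pr_spec (h : CircleOn n N O R a) {y : N} (hy : y ∈ O) :
    ∃ t : ℝ, |t| ≤ 1 ∧ y = R t (pr R a y) := by
  refine ⟨Complex.arg (a y) / (2 * Real.pi), ?_, ?_⟩
  · have hpi := Real.pi_pos
    have h1 := Complex.abs_arg_le_pi (a y)
    rw [abs_div, abs_of_pos (by positivity : 0 < 2 * Real.pi), div_le_one (by positivity)]
    linarith
  · unfold pr rot
    rw [← h.add _ _ _ hy, add_neg_cancel, h.zero _ hy]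

theorem pr_smooth (h : CircleOn n N O R a) {y : N} (hy : y ∈ O) :
    ContMDiffAt (𝓡 n) (𝓡 n) ∞ (pr R a) y := by
  have ha : ContMDiffAt (𝓡 n) 𝓘(ℝ, ℂ) ∞ a y :=
    h.smooth_a.contMDiffAt (h.isOpen.mem_nhds hy)
  have hR : ∀ t : ℝ, ContMDiffAt (𝓘(ℝ, ℝ).prod (𝓡 n)) (𝓡 n) ∞ (fun q : ℝ × N => R q.1 q.2) (t, y) :=
    fun t => h.smooth.contMDiffAt ((isOpen_univ.prod h.isOpen).mem_nhds ⟨mem_univ _, hy⟩)
  by_cases hs : a y ∈ Complex.slitPlane
  · have c1 : ContDiffAt ℝ ∞ (fun w : ℂ => -(Complex.arg w / (2 * Real.pi))) (a y) :=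
      ((arg_smooth hs).div_const _).neg
    have c2 : ContMDiffAt (𝓡 n) 𝓘(ℝ, ℝ) ∞ (fun y => -(Complex.arg (a y) / (2 * Real.pi))) y :=
      ContDiffAt.comp_contMDiffAt (g := fun w : ℂ => -(Complex.arg w / (2 * Real.pi))) (f := a) c1 ha
    have c3 : ContMDiffAt (𝓡 n) (𝓘(ℝ, ℝ).prod (𝓡 n)) ∞
        (fun y => (-(Complex.arg (a y) / (2 * Real.pi)), y)) y := c2.prodMk contMDiffAt_id
    exact (hR (-(Complex.arg (a y) / (2 * Real.pi)))).comp (f := fun y => (-(Complex.arg (a y) / (2 * Real.pi)), y)) y c3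
  · have hs' : -a y ∈ Complex.slitPlane := by
      have hn := h.norm_a y hy
      by_contra hcon
      rw [Complex.mem_slitPlane_iff] at hs hcon
      push Not at hs hcon
      rw [Complex.neg_re, Complex.neg_im] at hcon
      have h1 : (a y).im = 0 := hs.2
      have h2 : (a y).re = 0 := by linarith [hs.1, hcon.1]
      have h3 : a y = 0 := Complex.ext h2 h1
      rw [h3, norm_zero] at hn
      exact zero_ne_one hn
    have c0 : ContDiffAt ℝ ∞ (fun w : ℂ => Complex.arg (-w)) (a y) :=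
      ContDiffAt.comp (a y) (arg_smooth hs') contDiff_neg.contDiffAt
    have c1 : ContDiffAt ℝ ∞ (fun w : ℂ => -(Complex.arg (-w) / (2 * Real.pi) + 1 / 2)) (a y) :=
      ((c0.div_const _).add contDiffAt_const).neg
    have c2 : ContMDiffAt (𝓡 n) 𝓘(ℝ, ℝ) ∞ (fun y => -(Complex.arg (-a y) / (2 * Real.pi) + 1 / 2)) y :=
      ContDiffAt.comp_contMDiffAt (g := fun w : ℂ => -(Complex.arg (-w) / (2 * Real.pi) + 1 / 2))
        (f := a) c1 ha
    have c3 : ContMDiffAt (𝓡 n) (𝓘(ℝ, ℝ).prod (𝓡 n)) ∞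
        (fun y => (-(Complex.arg (-a y) / (2 * Real.pi) + 1 / 2), y)) y := c2.prodMk contMDiffAt_id
    have c4 := (hR (-(Complex.arg (-a y) / (2 * Real.pi) + 1 / 2))).comp
      (f := fun y => (-(Complex.arg (-a y) / (2 * Real.pi) + 1 / 2), y)) y c3
    refine c4.congr_of_eventuallyEq ?_
    filter_upwards [h.isOpen.mem_nhds hy] with y' hy'
    exact rot_eq h (h.norm_a _ hy') hy'

open Classical in
/-- Rotation invariant cut-off functions near the circle through `z`. -/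
theorem exists_cutOff (h : CircleOn n N O R a) {z : N} (hz : z ∈ O) (haz : a z = 1) {W : Set N}
    (hW : IsOpen W) (hzW : ∀ t, R t z ∈ W) :
    ∃ (K : Set N) (χ : N → ℝ), CutOff n N O R K χ ∧ K ⊆ W ∧ ∀ᶠ y in 𝓝 z, χ y = 1 := by
  -- a neighbourhood of `z` whose rotations are in `W`
  have hRc : ∀ y ∈ O, ∀ t, ContinuousAt (fun q : ℝ × N => R q.1 q.2) (t, y) := by
    intro y hy t
    exact (h.smooth.contMDiffAt (x := (t, y)) ((isOpen_univ.prod h.isOpen).mem_nhds
      ⟨mem_univ _, hy⟩)).continuousAt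
  have hev : ∀ᶠ y in 𝓝 z, ∀ t ∈ Icc (-1 : ℝ) 1, R t y ∈ W := by
    refine (isCompact_Icc).eventually_forall_of_forall_eventually ?_
    intro t _
    have h1 := hRc z hz t
    have h2 : ∀ᶠ q : ℝ × N in 𝓝 (t, z), R q.1 q.2 ∈ W := h1.eventually (hW.mem_nhds (hzW t))
    exact (continuous_swap.tendsto (z, t)).eventually h2
  have hO : ∀ᶠ y in 𝓝 z, y ∈ O := h.isOpen.mem_nhds hz
  obtain ⟨b, -, hb⟩ := (SmoothBumpFunction.nhds_basis_tsupport (I := 𝓡 n) z).mem_iff.1 (hev.and hO)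
  set T : Set N := tsupport b with hT
  have hTc : IsCompact T := b.hasCompactSupport
  have hTO : T ⊆ O := fun y hy => (hb hy).2
  have hTW : ∀ y ∈ T, ∀ t ∈ Icc (-1 : ℝ) 1, R t y ∈ W := fun y hy => (hb hy).1
  set K : Set N := (fun q : ℝ × N => R q.1 q.2) '' (Icc (-1 : ℝ) 1 ×ˢ T) with hK
  have hKc : IsCompact K := by
    refine (isCompact_Icc.prod hTc).image_of_continuousOn ?_
    intro q hq
    exact (hRc q.2 (hTO hq.2) q.1).continuousWithinAt
  have hKO : K ⊆ O := by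
    rintro _ ⟨q, hq, rfl⟩
    exact h.maps _ _ (hTO hq.2)
  set χ : N → ℝ := fun y => if y ∈ O then b (pr R a y) else 0 with hχ
  have hχO : ∀ y ∈ O, χ y = b (pr R a y) := fun y hy => by simp only [hχ]; rw [if_pos hy]
  have hsupp : ∀ y ∉ K, χ y = 0 := by
    intro y hy
    by_cases hyO : y ∈ O
    · rw [hχO y hyO]
      by_contra h0
      apply hy
      obtain ⟨t, ht, hyt⟩ := pr_spec h hyO
      refine ⟨(t, pr R a y), ⟨abs_le.1 ht, subset_tsupport _ h0⟩, hyt.symm⟩
    · simp only [hχ]; rw [if_neg hyO]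
  refine ⟨K, χ, ⟨?_, hKc, hKO, hsupp, ?_, ?_, ?_⟩, ?_, ?_⟩
  · intro y
    by_cases hy : y ∈ O
    · have c1 : ContMDiffAt (𝓡 n) 𝓘(ℝ, ℝ) ∞ (fun y => b (pr R a y)) y :=
        (b.contMDiff (x := pr R a y)).comp y (pr_smooth h hy)
      refine c1.congr_of_eventuallyEq ?_
      filter_upwards [h.isOpen.mem_nhds hy] with y' hy'
      exact hχO y' hy'
    · have hy' : y ∈ Kᶜ := fun h2 => hy (hKO h2)
      refine (contMDiffAt_const (c := (0 : ℝ))).congr_of_eventuallyEq ?_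
      filter_upwards [hKc.isClosed.isOpen_compl.mem_nhds hy'] with y' hy'
      exact hsupp y' hy'
  · intro t y hy
    rw [hχO _ (h.maps _ _ hy), hχO _ hy, pr_inv h t hy]
  · intro y
    by_cases hy : y ∈ O
    · rw [hχO y hy]; exact b.nonneg
    · simp only [hχ]; rw [if_neg hy]
  · intro y
    by_cases hy : y ∈ O
    · rw [hχO y hy]; exact b.le_one
    · simp only [hχ]; rw [if_neg hy]; exact zero_le_one
  · rintro _ ⟨q, hq, rfl⟩
    exact hTW _ hq.2 _ hq.1
  · have h1 : Tendsto (pr R a) (𝓝 z) (𝓝 z) := by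
      have h2 := (pr_smooth h hz).continuousAt.tendsto
      rwa [pr_of_one h hz haz] at h2
    filter_upwards [h1.eventually b.eventuallyEq_one, hO] with y hy hyO
    rw [hχO y hyO, hy]
    rfl

end

end Pool.Agent.H247.SC
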