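import Pool.Graph.R_seed8.W335.SCM.Moeb
import Pool.Graph.R_seed8.W320.SC.CF
import Pool.Graph.R_seed8.W54.SC.C
import Mathlib

/-!
# One-parameter groups of elliptic Moebius maps close to the identity
-/

set_option autoImplicit false

open scoped ComplexConjugate ContDiff
open Complex

namespace Pool.Agent.H247.SC

open Pool.Agent.W335.SCM (Mm step one_sub_ne sub_ne norm_Mm_sub)
open Pool.Agent.W320.SC (Nr ang mv)

/-- the speed of the rotation -/
noncomputable def lam (p : ℝ × ℝ) : ℝ := p.1 * (2 * p.2 - p.2 ^ 2) / 2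

/-- first entry of the matrix of the Moebius map at time `t` -/
noncomputable def al (p : ℝ × ℝ) (t : ℝ) : ℂ :=
  (Real.cos (lam p * t) : ℝ) + ((p.1 * (1 + (1 - p.2) ^ 2) / 2 * t * Real.sinc (lam p * t) : ℝ) : ℂ) * I

/-- second entry of the matrix of the Moebius map at time `t` -/
noncomputable def be (p : ℝ × ℝ) (t : ℝ) : ℂ :=
  ((p.1 * (1 - p.2) * t * Real.sinc (lam p * t) : ℝ) : ℂ) * I

theorem lam_zero : lam 0 = 0 := by simp [lam]

theorem al_zero (t : ℝ) : al 0 t = 1 := by simp [al, lam_zero]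
theorem be_zero (t : ℝ) : be 0 t = 0 := by simp [be]
theorem al_time_zero (p : ℝ × ℝ) : al p 0 = 1 := by simp [al]
theorem be_time_zero (p : ℝ × ℝ) : be p 0 = 0 := by simp [be]

theorem al_neg (p : ℝ × ℝ) (t : ℝ) : al p (-t) = conj (al p t) := by
  unfold al
  rw [map_add, map_mul, conj_ofReal, conj_ofReal, conj_I, mul_neg, Real.cos_neg, Real.sinc_neg]
  push_cast
  ring

theorem be_neg (p : ℝ × ℝ) (t : ℝ) : be p (-t) = -be p t := by
  unfold be
  rw [mul_neg (lam p), Real.sinc_neg]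
  push_cast
  ring

/-- `sinc` is smooth -/
theorem contDiff_sinc : ContDiff ℝ ∞ Real.sinc := by
  rw [contDiff_iff_contDiffAt]
  intro x
  by_cases hx : x = 0
  · subst hx
    have h1 : AnalyticAt ℝ Real.sin 0 := Real.analyticAt_sin
    obtain ⟨p, hp⟩ := h1
    have h2 := hp.has_fpower_series_dslope_fslope
    rw [← Real.sinc_eq_dslope] at h2
    have h3 : AnalyticAt ℝ Real.sinc 0 := ⟨_, h2⟩
    exact h3.contDiffAt
  · have h1 : ContDiffAt ℝ ∞ (fun x => Real.sin x / x) x :=
      Real.contDiff_sin.contDiffAt.div contDiffAt_id hx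
    refine h1.congr_of_eventuallyEq ?_
    filter_upwards [isOpen_ne.mem_nhds hx] with y hy
    exact Real.sinc_of_ne_zero hy

theorem lam_smooth : ContDiff ℝ ∞ lam := by
  unfold lam
  fun_prop

theorem al_smooth : ContDiff ℝ ∞ (fun q : (ℝ × ℝ) × ℝ => al q.1 q.2) := by
  have h1 : ContDiff ℝ ∞ (fun q : (ℝ × ℝ) × ℝ => lam q.1 * q.2) :=
    (lam_smooth.comp contDiff_fst).mul contDiff_snd
  have h2 : ContDiff ℝ ∞ (fun q : (ℝ × ℝ) × ℝ => Real.cos (lam q.1 * q.2)) :=
    Real.contDiff_cos.comp h1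
  have h3 : ContDiff ℝ ∞ (fun q : (ℝ × ℝ) × ℝ =>
      q.1.1 * (1 + (1 - q.1.2) ^ 2) / 2 * q.2 * Real.sinc (lam q.1 * q.2)) := by
    have h4 : ContDiff ℝ ∞ (fun q : (ℝ × ℝ) × ℝ => q.1.1 * (1 + (1 - q.1.2) ^ 2) / 2 * q.2) := by
      fun_prop
    exact h4.mul (contDiff_sinc.comp h1)
  have h5 : ContDiff ℝ ∞ (fun x : ℝ => (x : ℂ)) := Complex.ofRealCLM.contDiff
  exact (h5.comp h2).add ((h5.comp h3).mul contDiff_const)

theorem be_smooth : ContDiff ℝ ∞ (fun q : (ℝ × ℝ) × ℝ => be q.1 q.2) := by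
  have h1 : ContDiff ℝ ∞ (fun q : (ℝ × ℝ) × ℝ => lam q.1 * q.2) :=
    (lam_smooth.comp contDiff_fst).mul contDiff_snd
  have h3 : ContDiff ℝ ∞ (fun q : (ℝ × ℝ) × ℝ =>
      q.1.1 * (1 - q.1.2) * q.2 * Real.sinc (lam q.1 * q.2)) := by
    have h4 : ContDiff ℝ ∞ (fun q : (ℝ × ℝ) × ℝ => q.1.1 * (1 - q.1.2) * q.2) := by
      fun_prop
    exact h4.mul (contDiff_sinc.comp h1)
  have h5 : ContDiff ℝ ∞ (fun x : ℝ => (x : ℂ)) := Complex.ofRealCLM.contDiff
  exact (h5.comp h3).mul contDiff_const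

/-- for small parameters the entries are close to those of the identity -/
theorem nr {p : ℝ × ℝ} (hp : ‖p‖ < 1 / 16) {t : ℝ} (ht : |t| ≤ 1) : Nr (al p t) (be p t) := by
  have h1 : |p.1| < 1 / 16 := (norm_fst_le p).trans_lt hp
  have h2 : |p.2| < 1 / 16 := (norm_snd_le p).trans_lt hp
  have hs : |Real.sinc (lam p * t)| ≤ 1 := Real.abs_sinc_le_one _
  obtain ⟨a1, a2⟩ := abs_lt.1 h1
  obtain ⟨b1, b2⟩ := abs_lt.1 h2
  have hlam : |lam p| ≤ 1 / 16 := by
    unfold lam
    have e : p.1 * (2 * p.2 - p.2 ^ 2) / 2 = p.1 * (p.2 * (2 - p.2) / 2) := by ring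
    rw [e, abs_mul]
    have h3 : |p.2 * (2 - p.2) / 2| ≤ 1 := by
      rw [abs_le]; constructor <;> nlinarith
    calc |p.1| * |p.2 * (2 - p.2) / 2| ≤ 1 / 16 * 1 := mul_le_mul h1.le h3 (abs_nonneg _) (by norm_num)
      _ = 1 / 16 := by ring
  have hlt : |lam p * t| ≤ 1 / 16 := by
    rw [abs_mul]
    calc |lam p| * |t| ≤ 1 / 16 * 1 := mul_le_mul hlam ht (abs_nonneg _) (by norm_num)
      _ = 1 / 16 := by ring
  have hcos : 1 - Real.cos (lam p * t) ≤ (1 / 16) ^ 2 / 2 := by
    have h3 := Real.one_sub_sq_div_two_le_cos (x := lam p * t)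
    have h4 : (lam p * t) ^ 2 ≤ (1 / 16) ^ 2 := by
      rw [← sq_abs]
      exact pow_le_pow_left₀ (abs_nonneg _) hlt 2
    linarith
  have hcos0 : 0 ≤ 1 - Real.cos (lam p * t) := by
    have := Real.cos_le_one (lam p * t)
    linarith
  constructor
  · have e1 : al p t - 1 = ((-(1 - Real.cos (lam p * t)) : ℝ) : ℂ) +
        ((p.1 * (1 + (1 - p.2) ^ 2) / 2 * t * Real.sinc (lam p * t) : ℝ) : ℂ) * I := by
      unfold al
      push_cast
      ring
    have h5 : |p.1 * (1 + (1 - p.2) ^ 2) / 2 * t * Real.sinc (lam p * t)| ≤ 1 / 8 := by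
      have h6 : |p.1 * (1 + (1 - p.2) ^ 2) / 2| ≤ 1 / 8 := by
        have e : p.1 * (1 + (1 - p.2) ^ 2) / 2 = p.1 * ((1 + (1 - p.2) ^ 2) / 2) := by ring
        have h7 : |(1 + (1 - p.2) ^ 2) / 2| ≤ 2 := by
          rw [abs_le]; constructor <;> nlinarith
        rw [e, abs_mul]
        calc |p.1| * |(1 + (1 - p.2) ^ 2) / 2| ≤ 1 / 16 * 2 :=
              mul_le_mul h1.le h7 (abs_nonneg _) (by norm_num)
          _ = 1 / 8 := by ring
      rw [abs_mul, abs_mul]
      calc |p.1 * (1 + (1 - p.2) ^ 2) / 2| * |t| * |Real.sinc (lam p * t)| ≤ 1 / 8 * 1 * 1 := by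
            gcongr
        _ = 1 / 8 := by ring
    rw [e1]
    refine (norm_add_le _ _).trans_lt ?_
    rw [norm_mul, Complex.norm_I, mul_one, Complex.norm_real, Complex.norm_real, norm_neg,
      Real.norm_of_nonneg hcos0, Real.norm_eq_abs]
    linarith
  · have h5 : |p.1 * (1 - p.2) * t * Real.sinc (lam p * t)| ≤ 1 / 8 := by
      have h6 : |p.1 * (1 - p.2)| ≤ 1 / 8 := by
        have h7 : |1 - p.2| ≤ 2 := by
          rw [abs_le]; constructor <;> linarith
        rw [abs_mul]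
        calc |p.1| * |1 - p.2| ≤ 1 / 16 * 2 :=
              mul_le_mul h1.le h7 (abs_nonneg _) (by norm_num)
          _ = 1 / 8 := by ring
      rw [abs_mul, abs_mul]
      calc |p.1 * (1 - p.2)| * |t| * |Real.sinc (lam p * t)| ≤ 1 / 8 * 1 * 1 := by
            gcongr
        _ = 1 / 8 := by ring
    unfold be
    rw [norm_mul, Complex.norm_I, mul_one, Complex.norm_real, Real.norm_eq_abs]
    linarith

theorem mul_sinc (x : ℝ) : x * Real.sinc x = Real.sin x := by
  by_cases hx : x = 0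
  · subst hx; simp
  · rw [Real.sinc_of_ne_zero hx]; field_simp

theorem norm_Mm {s : ℝ} (h0 : 0 ≤ s) (h1 : s < 1) {v : ℂ} (hv : ‖v‖ = 1) : ‖Mm s v‖ = 1 := by
  have n1 := one_sub_ne h0 h1 hv
  have hvv : v * conj v = 1 := by
    rw [Complex.mul_conj, Complex.normSq_eq_norm_sq, hv]
    simp
  have e : v - s = v * conj (1 - s * v) := by
    rw [map_sub, map_mul, map_one, conj_ofReal]
    linear_combination (s : ℂ) * hvv
  unfold Mm
  rw [norm_div, e, norm_mul, hv, one_mul, Complex.norm_conj, div_self (norm_ne_zero_iff.2 n1)]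

theorem sin_lower {S t : ℝ} (hS : 2 < S) (h1 : 1 ≤ t) (h2 : t ≤ S - 1) :
    2 / S ≤ Real.sin (Real.pi * t / S) := by
  have hS0 : 0 < S := by linarith
  have hpi := Real.pi_pos
  by_cases h : 2 * t ≤ S
  · have h3 := Real.mul_le_sin (x := Real.pi * t / S) (by positivity) (by
      rw [div_le_div_iff₀ hS0 (by norm_num)]
      nlinarith)
    refine le_trans ?_ h3
    have : 2 / Real.pi * (Real.pi * t / S) = 2 * t / S := by field_simp
    rw [this]
    gcongr
    linarith
  · push Not at h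
    have e : Real.sin (Real.pi * t / S) = Real.sin (Real.pi * (S - t) / S) := by
      rw [← Real.sin_pi_sub]
      congr 1
      field_simp
    rw [e]
    have h3 := Real.mul_le_sin (x := Real.pi * (S - t) / S) (by
      apply div_nonneg _ hS0.le
      apply mul_nonneg hpi.le
      linarith) (by
      rw [div_le_div_iff₀ hS0 (by norm_num)]
      nlinarith)
    refine le_trans ?_ h3
    have : 2 / Real.pi * (Real.pi * (S - t) / S) = 2 * (S - t) / S := by field_simp
    rw [this]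
    gcongr
    linarith

/-- One-parameter groups of elliptic Moebius maps close to the identity, of large period `S`, for which
the orbit of `1` comes back to a fixed neighbourhood of `1` only at the end of the period. -/
theorem moeb (κ : ℝ) (hκ : 0 < κ) : ∃ δ M : ℝ, 0 < δ ∧ 2 < M ∧ ∀ S : ℝ, M ≤ S →
    ∃ (p : ℝ × ℝ) (G : ℝ → ℂ), ‖p‖ < κ ∧ G 0 = 1 ∧ G S = 1 ∧ (∀ t, ‖G t‖ = 1) ∧
      (∀ t τ : ℝ, al p τ + be p τ * conj (G t) ≠ 0 → mv (al p τ) (be p τ) (G t) = G (t + τ)) ∧
      ∀ t, 1 ≤ t → t ≤ S - 1 → δ ≤ ‖G t - 1‖ := by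
  have hpi := Real.pi_pos
  have hpi4 := Real.pi_le_four
  set b : ℝ := κ / 16 with hb
  have hb0 : 0 < b := by positivity
  have hM1 : 0 < 2 / b := by positivity
  have hM2 : 0 < 2 / (κ * b) := by positivity
  refine ⟨4 * b / (1 + 4 * b), 3 + 2 / b + 2 / (κ * b), by positivity, by linarith,
    fun S hS => ?_⟩
  have hS2 : 2 < S := by linarith
  have hS0 : 0 < S := by linarith
  have hbS : 2 < b * S := by
    have h1 : 2 / b < S := by linarith
    rw [div_lt_iff₀ hb0] at h1
    linarith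
  have hκbS : 2 < κ * (b * S) := by
    have h1 : 2 / (κ * b) < S := by linarith
    rw [div_lt_iff₀ (by positivity)] at h1
    linarith
  have hbS0 : 0 < b * S := by positivity
  set σ : ℝ := 1 / (b * S) with hσ
  have hσ0 : 0 < σ := by positivity
  have hσ1 : σ ≤ 1 / 2 := by
    rw [hσ, div_le_div_iff₀ hbS0 (by norm_num)]
    linarith
  have hσκ : σ < κ := by
    rw [hσ, div_lt_iff₀ hbS0]
    linarith
  set s : ℝ := 1 - σ with hs
  have hs0 : 0 ≤ s := by linarith
  have hs1 : s < 1 := by linarith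
  set L : ℝ := Real.pi / S with hL
  have hL0 : 0 < L := by positivity
  set p : ℝ × ℝ := (2 * L / (1 - s ^ 2), σ) with hp
  have hsq : σ ≤ 1 - s ^ 2 := by rw [hs]; nlinarith
  have hsq0 : 0 < 1 - s ^ 2 := by linarith
  have hinv : 1 / (1 - s ^ 2) ≤ b * S := by
    rw [div_le_iff₀ hsq0]
    have h1 : b * S * σ = 1 := by rw [hσ]; field_simp
    nlinarith
  have hlam : lam p = L := by
    unfold lam
    have e : 2 * σ - σ ^ 2 = 1 - s ^ 2 := by rw [hs]; ring
    simp only [hp]
    rw [e]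
    field_simp
  have hLS : L * S = Real.pi := by rw [hL]; field_simp
  have hp1 : p.1 = 2 * L / (1 - s ^ 2) := rfl
  have hp2 : 1 - p.2 = s := rfl
  set G : ℝ → ℂ := fun t => Mm s (Complex.exp (((2 * L * t : ℝ) : ℂ) * I)) with hG
  have hun : ∀ x : ℝ, ‖Complex.exp ((x : ℂ) * I)‖ = 1 := Complex.norm_exp_ofReal_mul_I
  have hMm1 : Mm s 1 = 1 := by
    unfold Mm
    have := one_sub_ne hs0 hs1 (v := 1) (by simp)
    rw [mul_one] at this ⊢
    rw [div_self this]
  refine ⟨p, G, ?_, ?_, ?_, fun t => norm_Mm hs0 hs1 (hun _), ?_, ?_⟩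
  · rw [Prod.norm_def]
    apply max_lt
    · rw [hp1, Real.norm_of_nonneg (by positivity)]
      calc 2 * L / (1 - s ^ 2) = 2 * L * (1 / (1 - s ^ 2)) := by ring
        _ ≤ 2 * L * (b * S) := by gcongr
        _ = 2 * b * (L * S) := by ring
        _ = 2 * b * Real.pi := by rw [hLS]
        _ ≤ 8 * b := by nlinarith
        _ < κ := by rw [hb]; linarith
    · show ‖σ‖ < κ
      rw [Real.norm_of_nonneg hσ0.le]
      exact hσκ
  · simp only [hG, mul_zero, Complex.ofReal_zero, zero_mul, Complex.exp_zero]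
    exact hMm1
  · have e : (((2 * L * S : ℝ) : ℂ) * I) = 2 * Real.pi * I := by
      have : 2 * L * S = 2 * Real.pi := by rw [mul_assoc, hLS]
      rw [this]; push_cast; ring
    simp only [hG]
    rw [e, Complex.exp_two_pi_mul_I]
    exact hMm1
  · intro t τ hne
    set e : ℂ := Complex.exp (((L * τ : ℝ) : ℂ) * I) with he
    set v : ℂ := Complex.exp (((2 * L * t : ℝ) : ℂ) * I) with hv
    have he1 : e = (Real.cos (L * τ) : ℂ) + (Real.sin (L * τ) : ℂ) * I := by
      rw [he, Complex.exp_mul_I]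
      push_cast
      ring
    have he2 : conj e = (Real.cos (L * τ) : ℂ) - (Real.sin (L * τ) : ℂ) * I := by
      rw [he1, map_add, map_mul, conj_ofReal, conj_ofReal, conj_I]
      ring
    have hne2 : (1 : ℂ) - (s : ℂ) ^ 2 ≠ 0 := by
      intro h
      have h2 : (1 : ℝ) - s ^ 2 = 0 := by exact_mod_cast h
      linarith
    have hms := mul_sinc (L * τ)
    have ha : al p τ = 1 + ((e - s ^ 2 * conj e) / (1 - s ^ 2) - 1) := by
      unfold al
      rw [hlam, hp2, hp1]
      have e1 : 2 * L / (1 - s ^ 2) * (1 + s ^ 2) / 2 * τ * Real.sinc (L * τ) =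
          (1 + s ^ 2) / (1 - s ^ 2) * Real.sin (L * τ) := by
        rw [← hms]; ring
      rw [e1, he2, he1]
      push_cast
      generalize Complex.cos (↑L * ↑τ) = A
      generalize Complex.sin (↑L * ↑τ) = B
      field_simp
      ring
    have hbeq : be p τ = s * (e - conj e) / (1 - s ^ 2) := by
      unfold be
      rw [hlam, hp2, hp1]
      have e1 : 2 * L / (1 - s ^ 2) * s * τ * Real.sinc (L * τ) =
          2 * s / (1 - s ^ 2) * Real.sin (L * τ) := by
        rw [← hms]; ring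
      rw [e1, he2, he1]
      push_cast
      generalize Complex.cos (↑L * ↑τ) = A
      generalize Complex.sin (↑L * ↑τ) = B
      field_simp
      ring
    have hst := step hs0 hs1 (hun (L * τ)) (hun (2 * L * t)) (p := (e - s ^ 2 * conj e) / (1 - s ^ 2) - 1)
      (q := s * (e - conj e) / (1 - s ^ 2)) rfl rfl
    have hGt : G t = Mm s v := rfl
    have hGt2 : G (t + τ) = Mm s (e ^ 2 * v) := by
      simp only [hG]
      congr 1
      rw [he, hv, ← Complex.exp_nat_mul, ← Complex.exp_add]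
      congr 1
      push_cast
      ring
    have hmv : mv (al p τ) (be p τ) (G t) =
        ((al p τ + be p τ * conj (G t)) / conj (al p τ + be p τ * conj (G t))) * G t := by
      unfold mv ang
      rw [Pool.Agent.W54.SC.exp_arg _ hne]
    rw [hmv, hGt2, ← hst, ha, hbeq, hGt]
    ring
  · intro t ht1 ht2
    have h10 : 4 / S ≤ ‖Complex.exp (((2 * L * t : ℝ) : ℂ) * I) - 1‖ := by
      have e1 : (((2 * L * t : ℝ) : ℂ) * I) = I * ((2 * L * t : ℝ) : ℂ) := by ring
      rw [e1, Complex.norm_exp_I_mul_ofReal_sub_one, Real.norm_eq_abs, abs_mul]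
      have e2 : 2 * L * t / 2 = Real.pi * t / S := by rw [hL]; ring
      rw [e2]
      have h11 := sin_lower hS2 ht1 ht2
      have h12 := le_abs_self (Real.sin (Real.pi * t / S))
      have : 4 / S = 2 * (2 / S) := by ring
      rw [this, abs_of_pos (by norm_num : (0 : ℝ) < 2)]
      linarith
    have h13 := norm_Mm_sub hs0 hs1 (hun (2 * L * t)) (by positivity) h10
    refine le_trans (le_of_eq ?_) h13
    have : 1 - s = 1 / (b * S) := by rw [hs, hσ]; ring
    rw [this]
    field_simp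

end Pool.Agent.H247.SC
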