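import Pool.Agent.H247.SC.Nbhd
import Pool.Agent.H247.SC.Moeb

/-!
# Fibrewise Moebius perturbations with a cut-off
-/

set_option autoImplicit false
set_option linter.unusedSectionVars false

open scoped Manifold ContDiff Topology ComplexConjugate
open Filter Set Metric

universe u

namespace Pool.Agent.H247.SC

open Pool.Agent.H718R2.G
open Pool.Agent.W564.SC hiding S_LOC S_NBHD S_CL0 S_CL S_PSI
open Pool.Agent.W320.SC (Nr ang mv opp norm_mv)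

/-- `O` is an open subset of `N` with a smooth action `R` of the circle `ℝ / ℤ` and a smooth equivariant
map `a : O → S¹`; up to a diffeomorphism, `O = D × S¹` with the rotation of the second factor. -/
structure CircleOn (n : ℕ) (N : Type*) [TopologicalSpace N] [ChartedSpace (V n) N]
    (O : Set N) (R : ℝ → N → N) (a : N → ℂ) : Prop where
  isOpen : IsOpen O
  smooth : ContMDiffOn (𝓘(ℝ, ℝ).prod (𝓡 n)) (𝓡 n) ∞ (fun q : ℝ × N => R q.1 q.2) (univ ×ˢ O)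
  maps : ∀ t, ∀ y ∈ O, R t y ∈ O
  zero : ∀ y ∈ O, R 0 y = y
  add : ∀ s t, ∀ y ∈ O, R (s + t) y = R s (R t y)
  int : ∀ m : ℤ, ∀ y ∈ O, R m y = y
  smooth_a : ContMDiffOn (𝓡 n) 𝓘(ℝ, ℂ) ∞ a O
  norm_a : ∀ y ∈ O, ‖a y‖ = 1
  equiv : ∀ t, ∀ y ∈ O, a (R t y) = Complex.exp (2 * Real.pi * Complex.I * (t : ℝ)) * a y

section
variable {n : ℕ} {N : Type u} [TopologicalSpace N] [T2Space N]
    [ChartedSpace (V n) N] [IsManifold (𝓡 n) ∞ N]
  {O : Set N} {R : ℝ → N → N} {a : N → ℂ}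

theorem CircleOn.congr (h : CircleOn n N O R a) {s t : ℝ}
    (hst : Complex.exp (2 * Real.pi * Complex.I * (s : ℝ)) = Complex.exp (2 * Real.pi * Complex.I * (t : ℝ)))
    {y : N} (hy : y ∈ O) : R s y = R t y := by
  obtain ⟨m, hm⟩ := Complex.exp_eq_exp_iff_exists_int.1 hst
  have h7 : (2 * Real.pi * Complex.I) ≠ 0 := Complex.two_pi_I_ne_zero
  have h8 : (s : ℂ) = (t : ℂ) + m := by
    apply mul_left_cancel₀ h7
    rw [hm]
    ring
  have h9 : s = t + ((m : ℤ) : ℝ) := by exact_mod_cast h8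
  rw [h9, h.add _ _ _ hy, h.int _ _ hy]

theorem CircleOn.eq_of (h : CircleOn n N O R a) {t : ℝ} {y : N} (hy : y ∈ O)
    (ht : a (R t y) = a y) : R t y = y := by
  have h1 : Complex.exp (2 * Real.pi * Complex.I * (t : ℝ)) =
      Complex.exp (2 * Real.pi * Complex.I * ((0 : ℝ) : ℝ)) := by
    rw [h.equiv _ _ hy] at ht
    have h2 : a y ≠ 0 := by
      intro h0
      have := h.norm_a y hy
      rw [h0, norm_zero] at this
      exact zero_ne_one this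
    have h3 : Complex.exp (2 * Real.pi * Complex.I * (t : ℝ)) * a y = 1 * a y := by
      rw [ht, one_mul]
    rw [mul_right_cancel₀ h2 h3]
    simp
  rw [h.congr h1 hy, h.zero _ hy]

/-- `arg` is smooth on the slit plane -/
theorem arg_smooth {z : ℂ} (h : z ∈ Complex.slitPlane) : ContDiffAt ℝ ∞ Complex.arg z := by
  have h2 : ContDiffAt ℝ ∞ (fun x => Complex.imCLM (Complex.log x)) z :=
    Complex.imCLM.contDiff.contDiffAt.comp _ ((Complex.contDiffAt_log h).restrict_scalars ℝ)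
  refine h2.congr_of_eventuallyEq (Eventually.of_forall fun x => ?_)
  show Complex.arg x = (Complex.log x).im
  rw [Complex.log_im]

theorem ang_smooth {q : ℂ × ℂ × ℂ} (h : q.1 + q.2.1 * conj q.2.2 ∈ Complex.slitPlane) :
    ContDiffAt ℝ ∞ (fun q : ℂ × ℂ × ℂ => ang q.1 q.2.1 q.2.2) q := by
  have h3 : ContDiff ℝ ∞ (fun q : ℂ × ℂ × ℂ => q.1 + q.2.1 * conj q.2.2) := by
    have hc : ContDiff ℝ ∞ (fun w : ℂ => conj w) := Complex.conjCLE.contDiff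
    exact contDiff_fst.add (contDiff_snd.fst.mul (hc.comp contDiff_snd.snd))
  exact (ContDiffAt.comp q (arg_smooth h) h3.contDiffAt).div_const Real.pi

open Classical in
/-- the fibrewise Moebius map at time `χ y` -/
noncomputable def Kf (O : Set N) (R : ℝ → N → N) (a : N → ℂ) (χ : N → ℝ) (p : ℝ × ℝ) (y : N) : N :=
  if y ∈ O then R (ang (al p (χ y)) (be p (χ y)) (a y)) y else y

theorem Kf_of_mem {χ : N → ℝ} {p : ℝ × ℝ} {y : N} (hy : y ∈ O) :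
    Kf O R a χ p y = R (ang (al p (χ y)) (be p (χ y)) (a y)) y := by
  unfold Kf; rw [if_pos hy]

theorem Kf_of_not_mem {χ : N → ℝ} {p : ℝ × ℝ} {y : N} (hy : y ∉ O) :
    Kf O R a χ p y = y := by
  unfold Kf; rw [if_neg hy]

theorem Kf_of_zero (h : CircleOn n N O R a) {χ : N → ℝ} {p : ℝ × ℝ} {y : N} (hy : χ y = 0) :
    Kf O R a χ p y = y := by
  by_cases hO : y ∈ O
  · rw [Kf_of_mem hO, hy, al_time_zero, be_time_zero]
    have : ang 1 0 (a y) = 0 := by simp [ang]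
    rw [this, h.zero _ hO]
  · exact Kf_of_not_mem hO

theorem Kf_param_zero (h : CircleOn n N O R a) {χ : N → ℝ} {y : N} :
    Kf O R a χ 0 y = y := by
  by_cases hO : y ∈ O
  · rw [Kf_of_mem hO, al_zero, be_zero]
    have : ang 1 0 (a y) = 0 := by simp [ang]
    rw [this, h.zero _ hO]
  · exact Kf_of_not_mem hO

theorem Kf_mem (h : CircleOn n N O R a) {χ : N → ℝ} {p : ℝ × ℝ} {y : N} (hy : y ∈ O) :
    Kf O R a χ p y ∈ O := by
  rw [Kf_of_mem hy]; exact h.maps _ _ hy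

theorem a_Kf (h : CircleOn n N O R a) {χ : N → ℝ} {p : ℝ × ℝ} {y : N} (hy : y ∈ O) :
    a (Kf O R a χ p y) = mv (al p (χ y)) (be p (χ y)) (a y) := by
  rw [Kf_of_mem hy, h.equiv _ _ hy]
  rfl

/-- the cut-off functions: smooth, invariant under the rotations, with compact support in `O` -/
structure CutOff (n : ℕ) (N : Type*) [TopologicalSpace N] [ChartedSpace (V n) N]
    (O : Set N) (R : ℝ → N → N) (K : Set N) (χ : N → ℝ) : Prop where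
  smooth : ContMDiff (𝓡 n) 𝓘(ℝ, ℝ) ∞ χ
  compact : IsCompact K
  sub : K ⊆ O
  supp : ∀ y ∉ K, χ y = 0
  inv : ∀ t, ∀ y ∈ O, χ (R t y) = χ y
  nonneg : ∀ y, 0 ≤ χ y
  le_one : ∀ y, χ y ≤ 1

theorem Kf_inv (h : CircleOn n N O R a) {K : Set N} {χ : N → ℝ} (hχ : CutOff n N O R K χ)
    {p : ℝ × ℝ} (hp : ‖p‖ < 1 / 16) (y : N) :
    Kf O R a (fun y => -χ y) p (Kf O R a χ p y) = y := by
  by_cases hy : y ∈ O
  · have hy' := Kf_mem h (χ := χ) (p := p) hy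
    have hab : |χ y| ≤ 1 := by rw [abs_of_nonneg (hχ.nonneg y)]; exact hχ.le_one y
    have e1 : χ (Kf O R a χ p y) = χ y := by
      rw [Kf_of_mem hy, hχ.inv _ _ hy]
    rw [Kf_of_mem hy', e1, al_neg, be_neg, a_Kf h hy]
    conv_lhs => rw [Kf_of_mem hy]
    rw [← h.add _ _ _ hy, opp (nr hp hab) (h.norm_a y hy), h.zero _ hy]
  · rw [Kf_of_not_mem hy, Kf_of_not_mem hy]

theorem Kf_inv' (h : CircleOn n N O R a) {K : Set N} {χ : N → ℝ} (hχ : CutOff n N O R K χ)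
    {p : ℝ × ℝ} (hp : ‖p‖ < 1 / 16) (y : N) :
    Kf O R a χ p (Kf O R a (fun y => -χ y) p y) = y := by
  by_cases hy : y ∈ O
  · have hy' := Kf_mem h (χ := fun y => -χ y) (p := p) hy
    have hab : |(-χ y)| ≤ 1 := by rw [abs_neg, abs_of_nonneg (hχ.nonneg y)]; exact hχ.le_one y
    have e1 : χ (Kf O R a (fun y => -χ y) p y) = χ y := by
      rw [Kf_of_mem hy, hχ.inv _ _ hy]
    have e2 : al p (χ y) = conj (al p (-χ y)) := by rw [al_neg, Complex.conj_conj]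
    have e3 : be p (χ y) = -be p (-χ y) := by rw [be_neg, neg_neg]
    rw [Kf_of_mem hy', e1, e2, e3, a_Kf h hy]
    conv_lhs => rw [Kf_of_mem hy]
    rw [← h.add _ _ _ hy, opp (nr hp hab) (h.norm_a y hy), h.zero _ hy]
  · rw [Kf_of_not_mem hy, Kf_of_not_mem hy]

/-- joint smoothness -/
theorem Kf_smooth (h : CircleOn n N O R a) {K : Set N} {χ : N → ℝ}
    (hs : ContMDiff (𝓡 n) 𝓘(ℝ, ℝ) ∞ χ) (hK : IsCompact K) (hKO : K ⊆ O) (h0 : ∀ y ∉ K, χ y = 0)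
    (h1 : ∀ y, |χ y| ≤ 1) {q : (ℝ × ℝ) × N} (hq : ‖q.1‖ < 1 / 16) :
    ContMDiffAt (𝓘(ℝ, ℝ × ℝ).prod (𝓡 n)) (𝓡 n) ∞
      (fun q : (ℝ × ℝ) × N => Kf O R a χ q.1 q.2) q := by
  by_cases hy : q.2 ∈ O
  · have c1 : ContMDiffAt (𝓘(ℝ, ℝ × ℝ).prod (𝓡 n)) 𝓘(ℝ, (ℝ × ℝ) × ℝ) ∞
        (fun q : (ℝ × ℝ) × N => (q.1, χ q.2)) q :=
      ContMDiffAt.prodMk_space contMDiffAt_fst (hs.contMDiffAt.comp q contMDiffAt_snd)
    have c2 : ContMDiffAt (𝓘(ℝ, ℝ × ℝ).prod (𝓡 n)) 𝓘(ℝ, ℂ) ∞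
        (fun q : (ℝ × ℝ) × N => al q.1 (χ q.2)) q :=
      ContDiffAt.comp_contMDiffAt (g := fun q : (ℝ × ℝ) × ℝ => al q.1 q.2)
        (f := fun q : (ℝ × ℝ) × N => (q.1, χ q.2)) al_smooth.contDiffAt c1
    have c3 : ContMDiffAt (𝓘(ℝ, ℝ × ℝ).prod (𝓡 n)) 𝓘(ℝ, ℂ) ∞
        (fun q : (ℝ × ℝ) × N => be q.1 (χ q.2)) q :=
      ContDiffAt.comp_contMDiffAt (g := fun q : (ℝ × ℝ) × ℝ => be q.1 q.2)
        (f := fun q : (ℝ × ℝ) × N => (q.1, χ q.2)) be_smooth.contDiffAt c1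
    have ha : ContMDiffAt (𝓡 n) 𝓘(ℝ, ℂ) ∞ a q.2 :=
      h.smooth_a.contMDiffAt (h.isOpen.mem_nhds hy)
    have c4 : ContMDiffAt (𝓘(ℝ, ℝ × ℝ).prod (𝓡 n)) 𝓘(ℝ, ℂ) ∞
        (fun q : (ℝ × ℝ) × N => a q.2) q := ha.comp q contMDiffAt_snd
    have c5 : ContMDiffAt (𝓘(ℝ, ℝ × ℝ).prod (𝓡 n)) 𝓘(ℝ, ℂ × ℂ × ℂ) ∞
        (fun q : (ℝ × ℝ) × N => (al q.1 (χ q.2), be q.1 (χ q.2), a q.2)) q :=
      c2.prodMk_space (c3.prodMk_space c4)
    have hsl : al q.1 (χ q.2) + be q.1 (χ q.2) * conj (a q.2) ∈ Complex.slitPlane :=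
      (nr hq (h1 q.2)).slit (h.norm_a _ hy)
    have c6 : ContMDiffAt (𝓘(ℝ, ℝ × ℝ).prod (𝓡 n)) 𝓘(ℝ, ℝ) ∞
        (fun q : (ℝ × ℝ) × N => ang (al q.1 (χ q.2)) (be q.1 (χ q.2)) (a q.2)) q :=
      ContDiffAt.comp_contMDiffAt (g := fun q : ℂ × ℂ × ℂ => ang q.1 q.2.1 q.2.2)
        (f := fun q : (ℝ × ℝ) × N => (al q.1 (χ q.2), be q.1 (χ q.2), a q.2)) (ang_smooth hsl) c5
    have c7 : ContMDiffAt (𝓘(ℝ, ℝ × ℝ).prod (𝓡 n)) (𝓘(ℝ, ℝ).prod (𝓡 n)) ∞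
        (fun q : (ℝ × ℝ) × N => (ang (al q.1 (χ q.2)) (be q.1 (χ q.2)) (a q.2), q.2)) q :=
      c6.prodMk contMDiffAt_snd
    have hR : ContMDiffAt (𝓘(ℝ, ℝ).prod (𝓡 n)) (𝓡 n) ∞ (fun q : ℝ × N => R q.1 q.2)
        ((fun q : (ℝ × ℝ) × N => (ang (al q.1 (χ q.2)) (be q.1 (χ q.2)) (a q.2), q.2)) q) :=
      h.smooth.contMDiffAt ((isOpen_univ.prod h.isOpen).mem_nhds ⟨mem_univ _, hy⟩)
    have c8 := hR.comp q c7
    refine c8.congr_of_eventuallyEq ?_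
    filter_upwards [continuous_snd.continuousAt.preimage_mem_nhds (h.isOpen.mem_nhds hy)] with q' hq'
    exact Kf_of_mem hq'
  · have hy' : q.2 ∈ Kᶜ := fun h2 => hy (hKO h2)
    have h5 : ContMDiffAt (𝓘(ℝ, ℝ × ℝ).prod (𝓡 n)) (𝓡 n) ∞ (fun q : (ℝ × ℝ) × N => q.2) q :=
      contMDiffAt_snd
    refine h5.congr_of_eventuallyEq ?_
    filter_upwards [continuous_snd.continuousAt.preimage_mem_nhds
      (hK.isClosed.isOpen_compl.mem_nhds hy')] with q' hq'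
    exact Kf_of_zero h (h0 _ hq')

/-- The family of perturbations. -/
theorem fam (h : CircleOn n N O R a) {K : Set N} {χ : N → ℝ} (hχ : CutOff n N O R K χ)
    (r : ℕ∞) (F : DiffM n N r) : ∃ H : ℝ × ℝ → DiffM n N r, H 0 = F ∧ IsFam n N r H ∧
      (∀ p, ‖p‖ < 1 / 16 → ∀ y, H p y = F (Kf O R a χ p y)) ∧ ∀ p, ∀ y ∉ K, H p y = H 0 y := by
  have hr : ((r : WithTop ℕ∞)) ≤ ∞ := by exact_mod_cast le_top
  have ab1 : ∀ y, |χ y| ≤ 1 := fun y => by rw [abs_of_nonneg (hχ.nonneg y)]; exact hχ.le_one y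
  have key : ∀ p : ℝ × ℝ, ∃ G : DiffM n N r, (‖p‖ < 1 / 16 →
      ∀ y, G y = F (Kf O R a χ p y)) ∧ (¬ ‖p‖ < 1 / 16 → G = F) := by
    intro p
    by_cases hp : ‖p‖ < 1 / 16
    · have s1 : ContMDiff (𝓡 n) (𝓡 n) ∞ (Kf O R a χ p) := by
        intro y
        have := (Kf_smooth h hχ.smooth hχ.compact hχ.sub hχ.supp ab1 (q := (p, y)) hp).comp y
          ((contMDiffAt_const (c := p)).prodMk contMDiffAt_id)
        exact this
      have s2 : ContMDiff (𝓡 n) (𝓡 n) ∞ (Kf O R a (fun y => -χ y) p) := by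
        intro y
        have := (Kf_smooth h (χ := fun y => -χ y) (hχ.smooth.neg) hχ.compact hχ.sub
          (fun y hy => by rw [hχ.supp y hy, neg_zero]) (fun y => by rw [abs_neg]; exact ab1 y)
          (q := (p, y)) hp).comp y ((contMDiffAt_const (c := p)).prodMk contMDiffAt_id)
        exact this
      let G1 : DiffM n N r :=
        { toFun := Kf O R a χ p
          invFun := Kf O R a (fun y => -χ y) p
          left_inv := Kf_inv h hχ hp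
          right_inv := Kf_inv' h hχ hp
          contMDiff_toFun := s1.of_le hr
          contMDiff_invFun := s2.of_le hr }
      exact ⟨G1.trans F, fun _ y => rfl, fun h => absurd hp h⟩
    · exact ⟨F, fun h => absurd h hp, fun _ => rfl⟩
  choose H hH1 hH2 using key
  have hH0 : H 0 = F := by
    ext y
    rw [hH1 0 (by rw [norm_zero]; norm_num), Kf_param_zero h]
  refine ⟨H, hH0, ?_, hH1, ?_⟩
  · intro y
    have hq : Tendsto (fun q : (ℝ × ℝ) × N => ‖q.1‖) (𝓝 ((0 : ℝ × ℝ), y)) (𝓝 ‖(0 : ℝ × ℝ)‖) :=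
      (continuous_fst.norm.tendsto _)
    have hev : ∀ᶠ q : (ℝ × ℝ) × N in 𝓝 ((0 : ℝ × ℝ), y), ‖q.1‖ < 1 / 16 :=
      hq.eventually (gt_mem_nhds (by rw [norm_zero]; norm_num))
    have e1 : (fun q : (ℝ × ℝ) × N => H q.1 q.2) =ᶠ[𝓝 ((0 : ℝ × ℝ), y)]
        (fun q => F (Kf O R a χ q.1 q.2)) := by
      filter_upwards [hev] with q hq
      exact hH1 q.1 hq q.2
    refine ContMDiffAt.congr_of_eventuallyEq ?_ e1
    have s1 : ContMDiffAt (𝓘(ℝ, ℝ × ℝ).prod (𝓡 n)) (𝓡 n) r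
        (fun q : (ℝ × ℝ) × N => Kf O R a χ q.1 q.2) ((0 : ℝ × ℝ), y) :=
      (Kf_smooth h hχ.smooth hχ.compact hχ.sub hχ.supp ab1 (q := ((0 : ℝ × ℝ), y))
        (by rw [norm_zero]; norm_num)).of_le hr
    exact (F.contMDiff.contMDiffAt).comp _ s1
  · intro p y hy
    rw [hH0]
    by_cases hp : ‖p‖ < 1 / 16
    · rw [hH1 p hp, Kf_of_zero h (hχ.supp y hy)]
    · rw [hH2 p hp]

end

end Pool.Agent.H247.SC
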