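import Pool.Agent.H247.SC.Stm
import Pool.Graph.R_seed8.W216.SC.A
import Pool.Graph.R_seed8.W816.SC.Flex

/-!
# Closing for fibre motions along a mixing map with periodic shadowing, over an arbitrary base
-/

set_option autoImplicit false
set_option linter.unusedSectionVars false

open scoped Manifold ContDiff Topology
open Filter Set Metric

universe u v w

namespace Pool.Agent.H247.SC

open Pool.Agent.H718R2.G
open Pool.Agent.W564.SC hiding S_LOC S_NBHD S_CL0 S_CL S_PSI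
open Pool.Agent.W216.SC (exists_pos_le nonwand_long)

section
variable {n : ℕ} {N : Type u} [TopologicalSpace N] [T2Space N] [ChartedSpace (V n) N]
  {X : Type v} {Y : Type w} [MetricSpace X] [MetricSpace Y] [CompactSpace Y]
  {Θ : X × Y → N} {χ : OpenPartialHomeomorph N (V n)} {z : N}

theorem good_ball (hΘ : Topology.IsEmbedding Θ) (hχ : GoodChart n N χ z) {x : X} {y : Y}
    (hz : Θ (x, y) = z) {κ : ℝ} (hκ : 0 < κ) :
    ∃ η : ℝ, 0 < η ∧ ∀ p : X × Y, dist p (x, y) ≤ η → Θ p ∈ χ.source ∧ ‖χ (Θ p)‖ < κ := by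
  have h1 : ∀ᶠ p in 𝓝 (x, y), Θ p ∈ χ.source := by
    apply hΘ.continuous.continuousAt.eventually_mem
    rw [hz]
    exact χ.open_source.mem_nhds hχ.src
  have h2 : ContinuousAt (fun p => ‖χ (Θ p)‖) (x, y) := by
    apply ContinuousAt.norm
    apply ContinuousAt.comp (f := Θ) (g := χ)
    · rw [hz]; exact χ.continuousAt hχ.src
    · exact hΘ.continuous.continuousAt
  have h3 : ∀ᶠ p in 𝓝 (x, y), ‖χ (Θ p)‖ < κ := by
    apply h2.eventually_lt continuousAt_const
    rw [hz, hχ.zero, norm_zero]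
    exact hκ
  obtain ⟨ε, hε, h4⟩ := Metric.eventually_nhds_iff.1 (h1.and h3)
  exact ⟨ε / 2, half_pos hε, fun p hp => h4 (by linarith)⟩

/-- separation in the chart near a point -/
theorem sep_at (hΘ : Topology.IsEmbedding Θ) {d : ℝ} (hd : 0 < d) (p0 : X × Y)
    (hp0 : Θ p0 ∈ χ.source) :
    ∃ ρ : ℝ, 0 < ρ ∧ ∀ᶠ p in 𝓝 p0, ∀ q : X × Y, d ≤ dist q p → Θ q ∈ χ.source →
      ρ ≤ ‖χ (Θ q) - χ (Θ p)‖ := by
  -- a neighbourhood of `Θ p0` in `N` which only meets the image of a small ball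
  have h1 : ball p0 (d / 2) ∈ comap Θ (𝓝 (Θ p0)) := by
    rw [← hΘ.isInducing.nhds_eq_comap]
    exact ball_mem_nhds _ (half_pos hd)
  obtain ⟨W, hW, hWs⟩ := h1
  have h2 : χ.symm ⁻¹' W ∈ 𝓝 (χ (Θ p0)) := by
    apply (χ.continuousAt_symm (χ.map_source hp0)).preimage_mem_nhds
    rw [χ.left_inv hp0]
    exact hW
  obtain ⟨ε, hε, hεs⟩ := Metric.mem_nhds_iff.1 h2
  have h3 : ContinuousAt (fun p => χ (Θ p)) p0 :=
    ContinuousAt.comp (f := Θ) (g := χ) (χ.continuousAt hp0) hΘ.continuous.continuousAt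
  have h4 : ∀ᶠ p in 𝓝 p0, χ (Θ p) ∈ ball (χ (Θ p0)) (ε / 2) :=
    h3.eventually_mem (ball_mem_nhds _ (half_pos hε))
  refine ⟨ε / 2, half_pos hε, ?_⟩
  filter_upwards [h4, ball_mem_nhds p0 (half_pos hd)] with p hp hp' q hq hqs
  by_contra hcon
  push Not at hcon
  have h5 : χ (Θ q) ∈ ball (χ (Θ p0)) ε := by
    rw [mem_ball] at hp ⊢
    rw [dist_eq_norm] at hp ⊢
    have : χ (Θ q) - χ (Θ p0) = (χ (Θ q) - χ (Θ p)) + (χ (Θ p) - χ (Θ p0)) := by abel
    rw [this]
    have h6 := norm_add_le (χ (Θ q) - χ (Θ p)) (χ (Θ p) - χ (Θ p0))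
    linarith
  have h6 : Θ q ∈ W := by
    have := hεs h5
    rw [mem_preimage, χ.left_inv hqs] at this
    exact this
  have h7 : q ∈ ball p0 (d / 2) := hWs h6
  rw [mem_ball] at h7 hp'
  have h8 := dist_triangle_right q p p0
  linarith

/-- separation in the chart, uniformly along a compact part of a fibre -/
theorem sep (hΘ : Topology.IsEmbedding Θ) {x : X} {C : Set Y} (hC : IsCompact C)
    (hs : ∀ y' ∈ C, Θ (x, y') ∈ χ.source) {d : ℝ} (hd : 0 < d) :
    ∃ ρ : ℝ, 0 < ρ ∧ ∀ᶠ x' in 𝓝 x, ∀ y' ∈ C, ∀ q : X × Y, d ≤ dist q (x', y') →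
      Θ q ∈ χ.source → ρ ≤ ‖χ (Θ q) - χ (Θ (x', y'))‖ := by
  have h1 : ∀ᶠ t : X × ℝ in 𝓝 x ×ˢ 𝓝[>] 0, ∀ y' ∈ C, ∀ q : X × Y, d ≤ dist q (t.1, y') →
      Θ q ∈ χ.source → t.2 ≤ ‖χ (Θ q) - χ (Θ (t.1, y'))‖ := by
    have h2 : ∀ᶠ t : X × ℝ in 𝓝 ((x, 0) : X × ℝ), ∀ y' ∈ C, ∀ q : X × Y, d ≤ dist q (t.1, y') →
        Θ q ∈ χ.source → t.2 ≤ ‖χ (Θ q) - χ (Θ (t.1, y'))‖ := by
      apply hC.eventually_forall_of_forall_eventually
      intro y' hy'
      obtain ⟨ρ, hρ, hev⟩ := sep_at (χ := χ) hΘ hd (x, y') (hs y' hy')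
      have h3 : Tendsto (fun s : (X × ℝ) × Y => (s.1.1, s.2)) (𝓝 ((x, 0), y')) (𝓝 (x, y')) :=
        (((continuous_fst.comp continuous_fst).prodMk continuous_snd).tendsto _)
      have h4 : Tendsto (fun s : (X × ℝ) × Y => s.1.2) (𝓝 ((x, 0), y')) (𝓝 0) :=
        ((continuous_snd.comp continuous_fst).tendsto _)
      filter_upwards [h3.eventually hev, h4.eventually (gt_mem_nhds hρ)] with s hs1 hs2 q hq1 hq2
      exact hs2.le.trans (hs1 q hq1 hq2)
    rw [nhds_prod_eq] at h2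
    exact h2.filter_mono (Filter.prod_mono le_rfl nhdsWithin_le_nhds)
  obtain ⟨s, hs1, t, ht1, hst⟩ := Filter.mem_prod_iff.1 h1
  obtain ⟨ρ, hρ⟩ : ∃ ρ, ρ ∈ t ∩ Ioi (0 : ℝ) :=
    Filter.nonempty_of_mem (inter_mem ht1 self_mem_nhdsWithin)
  refine ⟨ρ, hρ.2, ?_⟩
  filter_upwards [hs1] with x' hx'
  exact hst (show (x', ρ) ∈ s ×ˢ t from ⟨hx', hρ.1⟩)

/-- equicontinuity along a compact part of a fibre -/
theorem equi (hΘ : Continuous Θ) {x : X} {C : Set Y} (hC : IsCompact C)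
    (hs : ∀ y' ∈ C, Θ (x, y') ∈ χ.source) {ε : ℝ} (hε : 0 < ε) :
    ∀ᶠ x' in 𝓝 x, ∀ y' ∈ C, ‖χ (Θ (x', y')) - χ (Θ (x, y'))‖ < ε := by
  apply hC.eventually_forall_of_forall_eventually
  intro y' hy'
  have h1 : ContinuousAt (fun p : X × Y => χ (Θ p)) (x, y') :=
    ContinuousAt.comp (f := Θ) (g := χ) (χ.continuousAt (hs y' hy')) hΘ.continuousAt
  have h2 : Tendsto (fun p : X × Y => (x, p.2)) (𝓝 (x, y')) (𝓝 (x, y')) :=
    (continuous_const.prodMk continuous_snd).tendsto _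
  have h3 : Tendsto (fun p : X × Y => ‖χ (Θ p) - χ (Θ (x, p.2))‖) (𝓝 (x, y')) (𝓝 0) := by
    have := (h1.tendsto.sub (h1.tendsto.comp h2)).norm
    simpa using this
  exact h3.eventually (gt_mem_nhds hε)

end

/-- total time in the fibres -/
def St {X : Type*} (f : X → X) (τ : X → ℕ) (x : X) (i : ℕ) : ℕ :=
  ∑ j ∈ Finset.range i, τ (f^[j] x)

theorem St_succ {X : Type*} (f : X → X) (τ : X → ℕ) (x : X) (i : ℕ) :
    St f τ x (i + 1) = St f τ x i + τ (f^[i] x) := by
  unfold St; rw [Finset.sum_range_succ]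

theorem St_add {X : Type*} (f : X → X) {τ : X → ℕ} (hτ : ∀ x, 1 ≤ τ x) (x : X) (i j : ℕ) :
    St f τ x i + j ≤ St f τ x (i + j) := by
  induction j with
  | zero => simp
  | succ j ih =>
    have := hτ (f^[i + j] x)
    rw [show i + (j + 1) = (i + j) + 1 from rfl, St_succ]
    omega

theorem St_le {X : Type*} (f : X → X) {τ : X → ℕ} (hτ : ∀ x, 1 ≤ τ x) (x : X) (i : ℕ) :
    i ≤ St f τ x i := by
  have := St_add f hτ x 0 i
  rw [zero_add] at this
  omega

theorem iter_Θ {N : Type u} {F : N → N} {X : Type v} {Y : Type w}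
    {f : X → X} {h : Y → Y} {τ : X → ℕ} {Θ : X × Y → N}
    (hF : ∀ x y, F (Θ (x, y)) = Θ (f x, h^[τ x] y)) (i : ℕ) (x : X) (y : Y) :
    F^[i] (Θ (x, y)) = Θ (f^[i] x, h^[St f τ x i] y) := by
  induction i with
  | zero => simp [St]
  | succ i ih =>
    rw [Function.iterate_succ_apply', ih, hF, Function.iterate_succ_apply', St_succ, add_comm,
      Function.iterate_add_apply]

/-- **Closing for fibre motions along a mixing map with periodic shadowing.** -/
theorem hyp_closing {n : ℕ} {N : Type u} [TopologicalSpace N] [T2Space N]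
    [ChartedSpace (V n) N] [IsManifold (𝓡 n) ∞ N] (r : ℕ∞) (hr : 1 ≤ r) (F : DiffM n N r)
    {X : Type v} {Y : Type w} [MetricSpace X] [MetricSpace Y] [CompactSpace Y]
    [Nontrivial Y] (f : X ≃ₜ X) (g : Y ≃ₜ Y) (hps : PerShadow g) (hcm : ChainMix g)
    (τ : X → ℕ) (hτ : ∀ x, 1 ≤ τ x)
    (Θ : X × Y → N) (hΘ : Topology.IsEmbedding Θ) (hF : ∀ x y, F (Θ (x, y)) = Θ (f x, g^[τ x] y))
    (x : X) (y : Y) (hx : NonWand f x) : LocallyClosable n N r F (Θ (x, y)) := by
  intro W hW U hU hFU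
  obtain ⟨χ, hχ, hχW⟩ := gc (n := n) (Θ (x, y)) W hW
  have hfam : IsFam n N r (fun _ : ℝ => F) := by
    intro y
    exact F.contMDiff.contMDiffAt.comp _ contMDiffAt_snd
  obtain ⟨k, hk, κ, hκ, hcl'⟩ := cl hr (fun _ : ℝ => F) hfam ∅ isCompact_empty
    (fun _ _ _ => rfl) χ (Θ (x, y)) hχ U hU hFU
  have hcl : ∀ (z' : N) (ρ : ℝ) (m : ℕ), z' ∈ χ.source → ‖χ z'‖ < κ → 0 < ρ →
        ρ < κ → 1 ≤ m →
        F^[m] z' ∈ χ.source → ‖χ (F^[m] z') - χ z'‖ < κ * ρ ^ k →
        (∀ i, 0 < i → i < m → F^[i] z' ∈ χ.source →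
          2 * ρ ≤ ‖χ (F^[i] z') - χ z'‖) →
        ∃ G ∈ U, IsPer G (Θ (x, y)) ∧ ∀ w, w ∉ W → F w ∉ W → G w = F w := by
    intro z' ρ m h1 h2 h3 h4 h5 h6 h7 h8
    obtain ⟨G, hG, hGp, hGs⟩ := hcl' 0 z' ρ m (by rw [norm_zero]; exact hκ) h1 h2 h3 h4 h5 h6 h7 h8
    exact ⟨G, hG, hGp, fun w hw1 hw2 => hGs w (Set.notMem_empty w)
      (fun h => hw1 (hχW (core_sub hχ h))) (fun h => hw2 (hχW (core_sub hχ h)))⟩
  obtain ⟨η, hη, hball⟩ := good_ball hΘ hχ rfl (lt_min hκ (half_pos one_pos) :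
    (0 : ℝ) < min κ (1 / 2))
  obtain ⟨ρ0, R, hρ0, hflex⟩ := Pool.Agent.W816.SC.flex Y g hps hcm y η hη
  have hmem : ∀ (x' : X) (y' : Y), dist x' x ≤ η → dist y' y ≤ η → Θ (x', y') ∈ χ.source ∧
      ‖χ (Θ (x', y'))‖ < min κ (1 / 2) := by
    intro x' y' h1 h2
    apply hball
    rw [Prod.dist_eq]
    exact max_le h1 h2
  by_cases hper : ∃ b : ℕ, 1 ≤ b ∧ f^[b] x = x
  · -- periodic
    obtain ⟨b, hb, hbx⟩ := hper
    set m := b * (2 * R + 1) with hm
    have hm1 : 1 ≤ m := Nat.mul_pos hb (by omega)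
    have hm2 : 2 * R ≤ m := by
      have : 1 * (2 * R + 1) ≤ b * (2 * R + 1) := Nat.mul_le_mul_right _ hb
      omega
    obtain ⟨y1, hy1, hy1', _⟩ := hflex (St f τ x m) (hm2.trans (St_le f hτ x m))
    have hxm : f^[m] x = x := by
      have h4 : Function.IsPeriodicPt f b x := hbx
      exact h4.mul_const (2 * R + 1)
    set z1 := Θ (x, y1) with hz1
    have hz1m : F^[m] z1 = z1 := by rw [hz1, iter_Θ hF, hxm, hy1']
    obtain ⟨hs, hn⟩ := hmem x y1 (by rw [dist_self]; exact hη.le) hy1.le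
    have hp : z1 ∈ Function.periodicPts F := Function.mk_mem_periodicPts (n := m) hm1 hz1m
    have hmp := Function.minimalPeriod_pos_of_mem_periodicPts hp
    set mp := Function.minimalPeriod F z1 with hmpdef
    classical
    obtain ⟨c, hc, hcm'⟩ := exists_pos_le (Finset.Ico 1 mp)
      (fun i => if F^[i] z1 ∈ χ.source then ‖χ (F^[i] z1) - χ z1‖ else 1) (by
      intro i hi
      rw [Finset.mem_Ico] at hi
      split_ifs with hsrc
      · apply norm_pos_iff.2
        rw [sub_ne_zero]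
        intro h5
        have h6 := χ.injOn hsrc hs h5
        exact Function.not_isPeriodicPt_of_pos_of_lt_minimalPeriod (by omega) hi.2 h6
      · exact one_pos)
    refine hcl z1 (min (c / 2) (κ / 2)) mp hs
      (hn.trans_le (min_le_left _ _)) (lt_min (half_pos hc) (half_pos hκ))
      ((min_le_right _ _).trans_lt (half_lt_self hκ)) hmp ?_ ?_ ?_
    · rw [hmpdef, Function.iterate_minimalPeriod]
      exact hs
    · rw [hmpdef, Function.iterate_minimalPeriod, sub_self, norm_zero]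
      have : 0 < min (c / 2) (κ / 2) := lt_min (half_pos hc) (half_pos hκ)
      positivity
    · intro i hi0 hi1 hsrc
      have h5 := hcm' i (by rw [Finset.mem_Ico]; omega)
      rw [if_pos hsrc] at h5
      have h6 : min (c / 2) (κ / 2) ≤ c / 2 := min_le_left _ _
      linarith
  · -- not periodic
    push Not at hper
    have hsymm : ∀ i : ℕ, 1 ≤ i → f.symm^[i] x ≠ x := by
      intro i hi h5
      apply hper i hi
      have h6 : f^[i] (f.symm^[i] x) = x := (f.toEquiv.right_inv.iterate i) x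
      conv_lhs => rw [← h5]
      exact h6
    obtain ⟨c1, hc1, hc1m⟩ := exists_pos_le (Finset.Ico 1 R) (fun i => dist (f^[i] x) x) (by
      intro i hi
      rw [Finset.mem_Ico] at hi
      exact dist_pos.2 (hper i hi.1))
    obtain ⟨c2, hc2, hc2m⟩ := exists_pos_le (Finset.Ico 1 R) (fun i => dist (f.symm^[i] x) x) (by
      intro i hi
      rw [Finset.mem_Ico] at hi
      exact dist_pos.2 (hsymm i hi.1))
    set c := min c1 c2 with hc
    have hc0 : 0 < c := lt_min hc1 hc2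
    have hc4 : 0 < c / 4 := by linarith
    have hev : ∀ᶠ x' in 𝓝 x, ∀ i ∈ Finset.Ico 1 R, dist (f^[i] x') (f^[i] x) < c / 4 ∧
        dist (f.symm^[i] x') (f.symm^[i] x) < c / 4 := by
      rw [Finset.eventually_all]
      intro i _
      have h5 : ContinuousAt (f^[i]) x := (f.continuous.iterate i).continuousAt
      have h6 : ContinuousAt (f.symm^[i]) x := (f.symm.continuous.iterate i).continuousAt
      exact (h5.eventually_mem (Metric.ball_mem_nhds _ hc4)).and
        (h6.eventually_mem (Metric.ball_mem_nhds _ hc4))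
    set d0 := min (c / 2) ρ0 with hd0
    have hd0' : 0 < d0 := lt_min (half_pos hc0) hρ0
    have hCc : IsCompact (closedBall y η) := Metric.isClosed_closedBall.isCompact
    have hCs : ∀ y' ∈ closedBall y η, Θ (x, y') ∈ χ.source := fun y' hy' =>
      (hmem x y' (by rw [dist_self]; exact hη.le) hy').1
    obtain ⟨ρ1, hρ1, hsep⟩ := sep (χ := χ) hΘ hCc hCs hd0'
    set ρ := min (ρ1 / 2) (κ / 2) with hρ
    have hρ' : 0 < ρ := lt_min (half_pos hρ1) (half_pos hκ)
    have hρκ : ρ < κ := (min_le_right _ _).trans_lt (half_lt_self hκ)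
    have hκρ : 0 < κ * ρ ^ k := by positivity
    have hequi := equi (χ := χ) hΘ.continuous hCc hCs (half_pos hκρ)
    obtain ⟨ε0, hε0, hε0'⟩ := Metric.eventually_nhds_iff.1 (hev.and (hsep.and hequi))
    set ε := min (min η ε0) (c / 4) with hε
    have hεpos : 0 < ε := lt_min (lt_min hη hε0) hc4
    have hεη : ε ≤ η := (min_le_left _ _).trans (min_le_left _ _)
    have hεε0 : ε ≤ ε0 := (min_le_left _ _).trans (min_le_right _ _)
    have hεc : ε ≤ c / 4 := min_le_right _ _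
    obtain ⟨x1, m, hmR, hm1, hx1, hx1m⟩ := nonwand_long f hx hper ε hεpos (2 * R)
    obtain ⟨y1, hy1, hy1m, hy1r⟩ := hflex (St f τ x1 m) (hmR.trans (St_le f hτ x1 m))
    obtain ⟨hs, hn⟩ := hmem x1 y1 (hx1.le.trans hεη) hy1.le
    obtain ⟨hs', hn'⟩ := hmem (f^[m] x1) y1 (hx1m.le.trans hεη) hy1.le
    have hit : ∀ i, F^[i] (Θ (x1, y1)) = Θ (f^[i] x1, g^[St f τ x1 i] y1) :=
      fun i => iter_Θ hF i x1 y1
    have hfar : ∀ i, 0 < i → i < m →
        d0 ≤ dist ((f^[i] x1, g^[St f τ x1 i] y1) : X × Y) (x1, y1) := by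
      intro i hi0 him
      rw [Prod.dist_eq]
      by_cases hiR : i < R
      · refine le_trans (min_le_left _ _) (le_trans ?_ (le_max_left _ _))
        have hmemi : i ∈ Finset.Ico 1 R := by rw [Finset.mem_Ico]; omega
        have h5 := hc1m i hmemi
        have h6 := ((hε0' (hx1.trans_le hεε0)).1 i hmemi).1
        have h7 : c ≤ c1 := min_le_left _ _
        have h8 := dist_triangle4 (f^[i] x) (f^[i] x1) x1 x
        rw [dist_comm (f^[i] x) (f^[i] x1)] at h8
        show c / 2 ≤ dist (f^[i] x1) x1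
        linarith
      · by_cases hiR2 : m < i + R
        · refine le_trans (min_le_left _ _) (le_trans ?_ (le_max_left _ _))
          have hmemi : m - i ∈ Finset.Ico 1 R := by rw [Finset.mem_Ico]; omega
          have h5 := hc2m (m - i) hmemi
          have h6 := ((hε0' (hx1m.trans_le hεε0)).1 (m - i) hmemi).2
          have h7 : c ≤ c2 := min_le_right _ _
          have h9 : f.symm^[m - i] (f^[m] x1) = f^[i] x1 := by
            have h10 : m = (m - i) + i := by omega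
            have h11 : f^[m] x1 = f^[m - i] (f^[i] x1) := by
              conv_lhs => rw [h10]
              exact Function.iterate_add_apply _ _ _ _
            rw [h11]
            exact (f.toEquiv.left_inv.iterate (m - i)) _
          rw [h9] at h6
          have h8 := dist_triangle4 (f.symm^[m - i] x) (f^[i] x1) x1 x
          rw [dist_comm (f.symm^[m - i] x) (f^[i] x1)] at h8
          show c / 2 ≤ dist (f^[i] x1) x1
          linarith
        · refine le_trans (min_le_right _ _) (le_trans ?_ (le_max_right _ _))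
          have h5 := St_le f hτ x1 i
          have h6 := St_add f hτ x1 i (m - i)
          rw [show i + (m - i) = m by omega] at h6
          exact hy1r _ (by omega) (by omega)
    refine hcl (Θ (x1, y1)) ρ m hs
      (hn.trans_le (min_le_left _ _)) hρ' hρκ hm1 ?_ ?_ ?_
    · rw [hit, hy1m]
      exact hs'
    · rw [hit, hy1m]
      have h5 := (hε0' (hx1m.trans_le hεε0)).2.2 y1 hy1.le
      have h6 := (hε0' (hx1.trans_le hεε0)).2.2 y1 hy1.le
      have h7 := norm_sub_le_norm_sub_add_norm_sub (χ (Θ (f^[m] x1, y1))) (χ (Θ (x, y1)))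
        (χ (Θ (x1, y1)))
      rw [norm_sub_rev (χ (Θ (x, y1)))] at h7
      linarith
    · intro i hi0 him hsrc
      rw [hit] at hsrc ⊢
      have h5 := (hε0' (hx1.trans_le hεε0)).2.1 y1 hy1.le _ (hfar i hi0 him) hsrc
      have h6 : ρ ≤ ρ1 / 2 := min_le_left _ _
      linarith

end Pool.Agent.H247.SC
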