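import Pool.Graph.R_seed8.W683.SC.Loc
import Pool.Graph.R_seed8.W917.SC.COMP
import Pool.Graph.R_seed8.W923.SC.NBHD
import Pool.Graph.R_seed8.W271.SC.Bump
import Pool.Graph.R_seed8.W428.SC.Push
import Pool.Graph.R_seed8.W782.SC.PSI
import Pool.Graph.R_seed8.W597.SC.CL
import Pool.Graph.R_seed8.W699.SC.GC

/-!
# Closing criterion with local support on arbitrary manifolds (adapted from project SC of the library,
which treats closed manifolds)
-/

set_option autoImplicit false
set_option linter.unusedSectionVars false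

open scoped Manifold ContDiff Topology
open Filter Set Metric

universe u

namespace Pool.Agent.H247.SC

open Pool.Agent.H718R2.G
open Pool.Agent.W564.SC hiding S_LOC
open Pool.Agent.W683.SC (jet_const jet_add jet_slice fam_smooth fam_tendsto jet_fam)

/-- LOC: convergence of the jets of `Θ ∘ H s` in charts (no compactness). -/
def S_LOC : Prop :=
  ∀ (n : ℕ) (N : Type u) [TopologicalSpace N] [T2Space N]
    [ChartedSpace (V n) N] [IsManifold (𝓡 n) ∞ N] (r : ℕ∞) (P : Type) [NormedAddCommGroup P]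
    [NormedSpace ℝ P] (H : P → DiffM n N r), IsFam n N r H →
    ∀ (χ : OpenPartialHomeomorph N (V n)) (z : N), GoodChart n N χ z → ∀ k : ℕ, (k : ℕ∞) ≤ r →
    ∀ φ ψ : OpenPartialHomeomorph N (V n), φ ∈ IsManifold.maximalAtlas (𝓡 n) ∞ N →
    ψ ∈ IsManifold.maximalAtlas (𝓡 n) ∞ N →
    ∀ (x : ℕ → N) (x₀ : N), Tendsto x atTop (𝓝 x₀) → x₀ ∈ φ.source → H 0 x₀ ∈ ψ.source →
    ∀ s : ℕ → P, Tendsto s atTop (𝓝 0) →
    ∀ (u : ℕ → V n → V n) (κ : ℕ → ℝ), Tendsto κ atTop (𝓝 0) → (∀ m, Small n k (κ m) (u m)) →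
    ∀ Θ : ℕ → DiffM n N r, (∀ m, IsPush n N r χ (u m) (Θ m)) →
    (∀ᶠ m in atTop, Θ m (H (s m) (x m)) ∈ ψ.source) ∧
    ∀ j ≤ k, Tendsto
      (fun m => iteratedFDeriv ℝ j (ψ ∘ (fun y => Θ m (H (s m) y)) ∘ φ.symm) (φ (x m))) atTop
      (𝓝 (iteratedFDeriv ℝ j (ψ ∘ H 0 ∘ φ.symm) (φ x₀)))

/-- LOC -/
theorem loc (h : S_COMP) : S_LOC.{u} := by
  intro n N _ _ _ _ r P _ _ H hfam χ z hχ k hk φ ψ hφ hψ x x₀ hx hx₀ hw s hs u κ hκ hu Θ hΘ
  have hH : Tendsto (fun m => H (s m) (x m)) atTop (𝓝 (H 0 x₀)) := fam_tendsto hfam hx hs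
  have hxφ : ∀ᶠ m in atTop, x m ∈ φ.source := hx.eventually (φ.open_source.mem_nhds hx₀)
  set Kc : Set N := χ.symm '' closedBall (0 : V n) (1 / 2) with hKc
  have hsub : closedBall (0 : V n) (1 / 2) ⊆ χ.target :=
    (closedBall_subset_closedBall (by norm_num)).trans hχ.ball
  have hKcl : IsClosed Kc := by
    refine IsCompact.isClosed ?_
    exact (isCompact_closedBall _ _).image_of_continuousOn (χ.continuousOn_symm.mono hsub)
  -- outside of `Kc` the maps `Θ m` are the identity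
  have hid : ∀ m, ∀ y ∉ Kc, Θ m y = y := by
    intro m y hy
    by_cases hys : y ∈ χ.source
    · obtain ⟨h1, h2⟩ := (hΘ m).1 y hys
      have h3 : 1 / 2 ≤ ‖χ y‖ := by
        by_contra hcon
        refine hy ⟨χ y, ?_, χ.left_inv hys⟩
        rw [mem_closedBall, dist_zero_right]
        exact (not_le.1 hcon).le
      rw [(hu m).supp _ h3, add_zero] at h2
      exact χ.injOn h1 hys h2
    · exact (hΘ m).2 y hys
  by_cases hwK : H 0 x₀ ∈ Kc
  · -- inside
    obtain ⟨v₀, hv₀, hv₀'⟩ := hwK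
    have hwχ : H 0 x₀ ∈ χ.source := by
      rw [← hv₀']
      exact χ.map_target (hsub hv₀)
    have hHχ : ∀ᶠ m in atTop, H (s m) (x m) ∈ χ.source :=
      hH.eventually (χ.open_source.mem_nhds hwχ)
    have J1 := jet_fam h hfam hφ hχ.mem hx hx₀ hwχ hs hk
    have ept : ∀ᶠ m in atTop, (χ ∘ H (s m) ∘ φ.symm) (φ (x m)) = χ (H (s m) (x m)) := by
      filter_upwards [hxφ] with m hm
      simp only [Function.comp, φ.left_inv hm]
    have e0 : (χ ∘ H 0 ∘ φ.symm) (φ x₀) = χ (H 0 x₀) := by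
      simp only [Function.comp, φ.left_inv hx₀]
    have t1 : Tendsto (fun m => (χ ∘ H (s m) ∘ φ.symm) (φ (x m))) atTop
        (𝓝 ((χ ∘ H 0 ∘ φ.symm) (φ x₀))) := by
      rw [e0]
      refine ((χ.continuousAt hwχ).tendsto.comp hH).congr' ?_
      filter_upwards [ept] with m hm
      exact hm.symm
    have hκ0 : ∀ j ≤ k, ∀ y : ℕ → V n,
        Tendsto (fun m => iteratedFDeriv ℝ j (u m) (y m)) atTop (𝓝 0) := by
      intro j hj y
      rw [tendsto_zero_iff_norm_tendsto_zero]
      exact squeeze_zero (fun m => norm_nonneg _) (fun m => (hu m).bd j hj (y m)) hκ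
    have J2 : JetConv k (fun m => (id : V n → V n) + u m)
        (fun m => (χ ∘ H (s m) ∘ φ.symm) (φ (x m))) id ((χ ∘ H 0 ∘ φ.symm) (φ x₀)) :=
      jet_add (jet_const t1 contDiff_id.contDiffAt)
        (fun m => (hu m).smooth.of_le (by exact_mod_cast le_top)) (fun j hj => hκ0 j hj _)
    have J12 := h (V n) (V n) (V n) k _ _ _ _ _ _ J1 J2
    have t2 : Tendsto (fun m => (((id : V n → V n) + u m) ∘ (χ ∘ H (s m) ∘ φ.symm)) (φ (x m)))
        atTop (𝓝 ((id ∘ (χ ∘ H 0 ∘ φ.symm)) (φ x₀))) := by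
      have h1 : Tendsto (fun m => u m ((χ ∘ H (s m) ∘ φ.symm) (φ (x m)))) atTop (𝓝 0) := by
        rw [tendsto_zero_iff_norm_tendsto_zero]
        refine squeeze_zero (fun m => norm_nonneg _) (fun m => ?_) hκ
        have := (hu m).bd 0 (Nat.zero_le k) ((χ ∘ H (s m) ∘ φ.symm) (φ (x m)))
        rwa [norm_iteratedFDeriv_zero] at this
      have h2 := t1.add h1
      rw [add_zero] at h2
      exact h2
    have hG3 : ContDiffAt ℝ k (ψ ∘ χ.symm) ((id ∘ (χ ∘ H 0 ∘ φ.symm)) (φ x₀)) := by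
      have e1 : (id ∘ (χ ∘ H 0 ∘ φ.symm)) (φ x₀) = χ (H 0 x₀) := e0
      rw [e1, ← contMDiffAt_iff_contDiffAt]
      have h1 : ContMDiffAt (𝓡 n) (𝓡 n) ∞ χ.symm (χ (H 0 x₀)) :=
        contMDiffAt_symm_of_mem_maximalAtlas hχ.mem (χ.map_source hwχ)
      have h2 : ContMDiffAt (𝓡 n) (𝓡 n) ∞ ψ (H 0 x₀) := contMDiffAt_of_mem_maximalAtlas hψ hw
      have h3 : ContMDiffAt (𝓡 n) (𝓡 n) ∞ (ψ ∘ χ.symm) (χ (H 0 x₀)) := by
        refine ContMDiffAt.comp _ ?_ h1
        rw [χ.left_inv hwχ]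
        exact h2
      exact h3.of_le (by exact_mod_cast le_top)
    have J3 := jet_const t2 hG3
    have J := h (V n) (V n) (V n) k _ _ _ _ _ _ J12 J3
    -- the first claim
    have key : ∀ m, ∀ y ∈ χ.source, Θ m y = χ.symm (χ y + u m (χ y)) := by
      intro m y hy
      obtain ⟨h1, h2⟩ := (hΘ m).1 y hy
      rw [← h2, χ.left_inv h1]
    constructor
    · have e1 : (id ∘ (χ ∘ H 0 ∘ φ.symm)) (φ x₀) = χ (H 0 x₀) := e0
      rw [e1] at t2
      have c1 : ContinuousAt χ.symm (χ (H 0 x₀)) := χ.continuousAt_symm (χ.map_source hwχ)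
      have t3 := c1.tendsto.comp t2
      rw [χ.left_inv hwχ] at t3
      have h4 := t3.eventually (ψ.open_source.mem_nhds hw)
      filter_upwards [h4, hHχ, ept] with m h5 h6 h7
      rw [key m _ h6]
      simp only [Function.comp, Pi.add_apply, id] at h5 h7
      rw [h7] at h5
      exact h5
    · intro j hj
      have hc := J.conv j hj
      have e3 : iteratedFDeriv ℝ j ((ψ ∘ χ.symm) ∘ (id ∘ (χ ∘ H 0 ∘ φ.symm))) (φ x₀) =
          iteratedFDeriv ℝ j (ψ ∘ H 0 ∘ φ.symm) (φ x₀) := by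
        refine (Filter.EventuallyEq.iteratedFDeriv ℝ ?_ j).eq_of_nhds
        have c1 : ContinuousAt (fun y => H 0 (φ.symm y)) (φ x₀) := by
          refine ContinuousAt.comp (g := H 0) (f := φ.symm) ?_
            (φ.continuousAt_symm (φ.map_source hx₀))
          exact (H 0).continuous.continuousAt
        have c2 : ∀ᶠ y in 𝓝 (φ x₀), H 0 (φ.symm y) ∈ χ.source := by
          refine c1.eventually (χ.open_source.mem_nhds ?_)
          simp only [φ.left_inv hx₀]
          exact hwχ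
        filter_upwards [c2] with y hy
        simp only [Function.comp, id, χ.left_inv hy]
      rw [e3] at hc
      refine hc.congr' ?_
      filter_upwards [hHχ, hxφ] with m hm hm'
      refine (Filter.EventuallyEq.iteratedFDeriv ℝ ?_ j).eq_of_nhds
      have c1 : ContinuousAt (fun y => H (s m) (φ.symm y)) (φ (x m)) := by
        refine ContinuousAt.comp (g := H (s m)) (f := φ.symm) ?_
          (φ.continuousAt_symm (φ.map_source hm'))
        exact (H (s m)).continuous.continuousAt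
      have c2 : ∀ᶠ y in 𝓝 (φ (x m)), H (s m) (φ.symm y) ∈ χ.source := by
        refine c1.eventually (χ.open_source.mem_nhds ?_)
        simp only [φ.left_inv hm']
        exact hm
      filter_upwards [c2] with y hy
      simp only [Function.comp, Pi.add_apply, id, key m _ hy]
  · -- outside
    have hO : ∀ᶠ m in atTop, H (s m) (x m) ∈ Kcᶜ :=
      hH.eventually (hKcl.isOpen_compl.mem_nhds hwK)
    have hψ' : ∀ᶠ m in atTop, H (s m) (x m) ∈ ψ.source :=
      hH.eventually (ψ.open_source.mem_nhds hw)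
    constructor
    · filter_upwards [hO, hψ'] with m h1 h2
      rw [hid m _ h1]
      exact h2
    · intro j hj
      have hc := (jet_fam h hfam hφ hψ hx hx₀ hw hs hk).conv j hj
      refine hc.congr' ?_
      filter_upwards [hO, hxφ] with m hm hm'
      refine (Filter.EventuallyEq.iteratedFDeriv ℝ ?_ j).eq_of_nhds
      have c1 : ContinuousAt (fun y => H (s m) (φ.symm y)) (φ (x m)) := by
        refine ContinuousAt.comp (g := H (s m)) (f := φ.symm) ?_
          (φ.continuousAt_symm (φ.map_source hm'))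
        exact (H (s m)).continuous.continuousAt
      have c2 : ∀ᶠ y in 𝓝 (φ (x m)), H (s m) (φ.symm y) ∈ Kcᶜ := by
        refine c1.eventually (hKcl.isOpen_compl.mem_nhds ?_)
        simp only [φ.left_inv hm']
        exact hm
      filter_upwards [c2] with y hy
      simp only [Function.comp, hid m _ hy]

end Pool.Agent.H247.SC
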