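import Pool.Agent.H247.SC.Circle

/-!
# Products with the identity of a manifold of dimension at least two
-/

set_option autoImplicit false
set_option linter.unusedSectionVars false

open scoped Manifold ContDiff Topology ComplexConjugate
open Filter Set Metric

universe u

namespace Pool.Agent.H247.SC

open Pool.Agent.H718R2.G
open Pool.Agent.W564.SC hiding S_LOC S_NBHD S_CL0 S_CL S_PSI

/-! ### recurrent points are nonwandering -/

theorem nonWand_of_isRec {X : Type*} [TopologicalSpace X] (f : X ≃ₜ X) (x : X) (h : IsRec f x) :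
    NonWand f x := by
  by_contra hcon
  unfold NonWand at hcon
  push Not at hcon
  obtain ⟨W, hW, hno⟩ := hcon
  apply h
  have hpow : ∀ (m : ℕ) (y : X), (f ^ m) y = (f : X → X)^[m] y := by
    intro m
    induction m with
    | zero => intro y; simp
    | succ m ih => intro y; rw [pow_succ, Homeomorph.mul_apply, ih, Function.iterate_succ_apply]
  have hx : x ∈ W := mem_of_mem_nhds hW
  have hsep : ∀ m : ℤ, (f ^ m) x ∈ W → m = 0 := by
    intro m hm
    rcases lt_trichotomy m 0 with h1 | h1 | h1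
    · obtain ⟨k, hk⟩ := Int.eq_ofNat_of_zero_le (show 0 ≤ -m by omega)
      have hk1 : 1 ≤ k := by omega
      exfalso
      apply hno k hk1 _ hm
      rw [← hpow]
      have e : (f ^ k) ((f ^ m) x) = x := by
        rw [← zpow_natCast, ← Homeomorph.mul_apply, ← zpow_add, ← hk]
        have : -m + m = 0 := by ring
        rw [this, zpow_zero]
        rfl
      rw [e]
      exact hx
    · exact h1
    · obtain ⟨k, hk⟩ := Int.eq_ofNat_of_zero_le h1.le
      have hk1 : 1 ≤ k := by omega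
      exfalso
      apply hno k hk1 _ hx
      rw [← hpow, ← zpow_natCast, ← hk]
      exact hm
  -- the map is an embedding
  have hshift : ∀ m i : ℤ, (f ^ i) x ∈ (f ^ m) '' W → i = m := by
    rintro m i ⟨w, hw, hwi⟩
    have : (f ^ (i - m)) x = w := by
      have e : (f ^ (i - m)) x = (f ^ (-m)) ((f ^ i) x) := by
        rw [← Homeomorph.mul_apply, ← zpow_add]
        congr 2
        ring
      rw [e, ← hwi, ← Homeomorph.mul_apply, ← zpow_add, neg_add_cancel, zpow_zero]
      rfl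
    have h2 := hsep (i - m) (by rw [this]; exact hw)
    omega
  refine ⟨⟨?_⟩, ?_⟩
  · apply le_antisymm
    · exact continuous_of_discreteTopology.le_induced
    · intro S _
      rw [isOpen_induced_iff]
      refine ⟨⋃ m ∈ S, (f ^ m) '' interior W, ?_, ?_⟩
      · exact isOpen_biUnion fun m _ => (f ^ m).isOpenMap _ isOpen_interior
      · ext i
        simp only [mem_preimage, mem_iUnion]
        constructor
        · rintro ⟨m, hm, hi⟩
          rw [hshift m i (image_mono interior_subset hi)]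
          exact hm
        · intro hi
          exact ⟨i, hi, ⟨x, mem_interior_iff_mem_nhds.2 hW, rfl⟩⟩
  · intro i j hij
    have : (f ^ i) x ∈ (f ^ j) '' W := ⟨x, hx, hij.symm⟩
    exact hshift j i this

/-! ### rotation of a plane in `ℝᵏ` -/

section rotation
variable {k : ℕ} (i₀ i₁ : Fin k)

/-- rotation in the plane of the coordinates `i₀`, `i₁` -/
noncomputable def ro (t : ℝ) (v : V k) : V k :=
  v + ((Real.cos (2 * Real.pi * t) - 1) * v i₀ - Real.sin (2 * Real.pi * t) * v i₁) •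
      EuclideanSpace.single i₀ (1 : ℝ) +
    (Real.sin (2 * Real.pi * t) * v i₀ + (Real.cos (2 * Real.pi * t) - 1) * v i₁) •
      EuclideanSpace.single i₁ (1 : ℝ)

variable {i₀ i₁} (h : i₀ ≠ i₁)
include h

theorem ro_zero_coord (t : ℝ) (v : V k) :
    ro i₀ i₁ t v i₀ = Real.cos (2 * Real.pi * t) * v i₀ - Real.sin (2 * Real.pi * t) * v i₁ := by
  simp [ro, h]
  ring

theorem ro_one_coord (t : ℝ) (v : V k) :
    ro i₀ i₁ t v i₁ = Real.sin (2 * Real.pi * t) * v i₀ + Real.cos (2 * Real.pi * t) * v i₁ := by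
  simp [ro, h.symm]
  ring

theorem ro_other (t : ℝ) (v : V k) (j : Fin k) (h0 : j ≠ i₀) (h1 : j ≠ i₁) :
    ro i₀ i₁ t v j = v j := by
  simp [ro, h0, h1]

theorem ro_zero (v : V k) : ro i₀ i₁ 0 v = v := by
  simp [ro]

theorem ro_add (s t : ℝ) (v : V k) : ro i₀ i₁ (s + t) v = ro i₀ i₁ s (ro i₀ i₁ t v) := by
  ext j
  by_cases h0 : j = i₀
  · subst h0
    rw [ro_zero_coord h, ro_zero_coord h, ro_zero_coord h, ro_one_coord h, mul_add, Real.cos_add,
      Real.sin_add]
    ring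
  · by_cases h1 : j = i₁
    · subst h1
      rw [ro_one_coord h, ro_one_coord h, ro_zero_coord h, ro_one_coord h, mul_add, Real.cos_add,
        Real.sin_add]
      ring
    · rw [ro_other h _ _ _ h0 h1, ro_other h _ _ _ h0 h1, ro_other h _ _ _ h0 h1]

theorem ro_int (m : ℤ) (v : V k) : ro i₀ i₁ m v = v := by
  have h1 : Real.cos (2 * Real.pi * m) = 1 := by
    rw [mul_comm]; exact Real.cos_int_mul_two_pi m
  have h2 : Real.sin (2 * Real.pi * m) = 0 := by
    have e : 2 * Real.pi * m = ((2 * m : ℤ) : ℝ) * Real.pi := by push_cast; ring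
    rw [e, Real.sin_int_mul_pi]
  simp [ro, h1, h2]

/-- the complex coordinate of the plane -/
noncomputable def zc (i₀ i₁ : Fin k) (v : V k) : ℂ := (v i₀ : ℂ) + (v i₁ : ℂ) * Complex.I

theorem zc_ro (t : ℝ) (v : V k) :
    zc i₀ i₁ (ro i₀ i₁ t v) = Complex.exp (2 * Real.pi * Complex.I * (t : ℝ)) * zc i₀ i₁ v := by
  unfold zc
  rw [ro_zero_coord h, ro_one_coord h]
  have e : 2 * Real.pi * Complex.I * (t : ℝ) = ((2 * Real.pi * t : ℝ) : ℂ) * Complex.I := by
    push_cast; ring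
  rw [e, Complex.exp_mul_I]
  push_cast
  have hI := Complex.I_mul_I
  linear_combination (-(Complex.sin (2 * ↑Real.pi * ↑t) * (v i₁ : ℂ))) * hI

omit h in
theorem zc_smooth : ContDiff ℝ ∞ (zc i₀ i₁ : V k → ℂ) := by
  have h0 : ContDiff ℝ ∞ (fun v : V k => v i₀) := by fun_prop
  have h1 : ContDiff ℝ ∞ (fun v : V k => v i₁) := by fun_prop
  have h5 : ContDiff ℝ ∞ (fun x : ℝ => (x : ℂ)) := Complex.ofRealCLM.contDiff
  exact (h5.comp h0).add ((h5.comp h1).mul contDiff_const)

omit h in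
theorem ro_smooth : ContDiff ℝ ∞ (fun q : ℝ × V k => ro i₀ i₁ q.1 q.2) := by
  unfold ro
  have h0 : ContDiff ℝ ∞ (fun q : ℝ × V k => q.2 i₀) := by fun_prop
  have h1 : ContDiff ℝ ∞ (fun q : ℝ × V k => q.2 i₁) := by fun_prop
  have c : ContDiff ℝ ∞ (fun q : ℝ × V k => Real.cos (2 * Real.pi * q.1)) :=
    Real.contDiff_cos.comp (by fun_prop)
  have s : ContDiff ℝ ∞ (fun q : ℝ × V k => Real.sin (2 * Real.pi * q.1)) :=
    Real.contDiff_sin.comp (by fun_prop)
  exact (contDiff_snd.add ((((c.sub contDiff_const).mul h0).sub (s.mul h1)).smul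
    contDiff_const)).add (((s.mul h0).add ((c.sub contDiff_const).mul h1)).smul contDiff_const)

end rotation

/-- a rotation invariant open subset of `ℝᵏ` close to `0`, with `0` on a small circle -/
theorem exists_model {k : ℕ} (hk : 2 ≤ k) {ε : ℝ} (hε : 0 < ε) :
    ∃ (B : Set (V k)) (Q : ℝ → V k → V k) (α : V k → ℂ), CircleOn k (V k) B Q α ∧
      (0 : V k) ∈ B ∧ (∀ v ∈ B, ‖v‖ < ε) := by
  set i₀ : Fin k := ⟨0, by omega⟩ with hi₀
  set i₁ : Fin k := ⟨1, by omega⟩ with hi₁
  have h01 : i₀ ≠ i₁ := by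
    intro h
    have := congrArg Fin.val h
    simp [hi₀, hi₁] at this
  set ρ : ℝ := ε / 8 with hρ
  have hρ0 : 0 < ρ := by positivity
  set e₀ : V k := EuclideanSpace.single i₀ (1 : ℝ) with he₀
  set e₁ : V k := EuclideanSpace.single i₁ (1 : ℝ) with he₁
  have hne₀ : ‖e₀‖ = 1 := by rw [he₀]; simp
  have hne₁ : ‖e₁‖ = 1 := by rw [he₁]; simp
  set c : V k := -(ρ • e₀) with hc
  have hcn : ‖c‖ = ρ := by rw [hc, norm_neg, norm_smul, hne₀, mul_one, Real.norm_of_nonneg hρ0.le]
  -- the transversal part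
  set q : V k → V k := fun w => w - w i₀ • e₀ - w i₁ • e₁ with hq
  have hqro : ∀ t w, q (ro i₀ i₁ t w) = q w := by
    intro t w
    ext j
    by_cases h0 : j = i₀
    · subst h0
      simp [hq, he₀, he₁, h01]
    · by_cases h1 : j = i₁
      · subst h1
        simp [hq, he₀, he₁, h01.symm]
      · have := ro_other h01 t w j h0 h1
        simp [hq, he₀, he₁, h0, h1, this]
  have hqc : Continuous q := by
    simp only [hq]
    fun_prop
  set B : Set (V k) := {v | ‖q (v - c)‖ < ρ ∧ 0 < ‖zc i₀ i₁ (v - c)‖ ∧ ‖zc i₀ i₁ (v - c)‖ < 2 * ρ}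
    with hB
  have hzcc : Continuous (zc i₀ i₁ : V k → ℂ) := zc_smooth.continuous
  have hBo : IsOpen B := by
    have h1 : IsOpen {v : V k | ‖q (v - c)‖ < ρ} :=
      isOpen_lt (hqc.comp (continuous_id.sub continuous_const)).norm continuous_const
    have h2 : IsOpen {v : V k | 0 < ‖zc i₀ i₁ (v - c)‖} :=
      isOpen_lt continuous_const (hzcc.comp (continuous_id.sub continuous_const)).norm
    have h3 : IsOpen {v : V k | ‖zc i₀ i₁ (v - c)‖ < 2 * ρ} :=
      isOpen_lt (hzcc.comp (continuous_id.sub continuous_const)).norm continuous_const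
    exact h1.inter (h2.inter h3)
  have hexp : ∀ t : ℝ, ‖Complex.exp (2 * Real.pi * Complex.I * (t : ℝ))‖ = 1 := by
    intro t
    have e : 2 * Real.pi * Complex.I * (t : ℝ) = ((2 * Real.pi * t : ℝ) : ℂ) * Complex.I := by
      push_cast; ring
    rw [e, Complex.norm_exp_ofReal_mul_I]
  set Q : ℝ → V k → V k := fun t v => ro i₀ i₁ t (v - c) + c with hQ
  have hQc : ∀ t v, Q t v - c = ro i₀ i₁ t (v - c) := by
    intro t v; simp only [hQ]; rw [add_sub_cancel_right]
  set α : V k → ℂ := fun v => zc i₀ i₁ (v - c) / (‖zc i₀ i₁ (v - c)‖ : ℝ) with hα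
  have hmap : ∀ t, ∀ v ∈ B, Q t v ∈ B := by
    intro t v hv
    obtain ⟨h1, h2, h3⟩ := hv
    refine ⟨?_, ?_, ?_⟩
    · rw [hQc, hqro]; exact h1
    · rw [hQc, zc_ro h01, norm_mul, hexp, one_mul]; exact h2
    · rw [hQc, zc_ro h01, norm_mul, hexp, one_mul]; exact h3
  refine ⟨B, Q, α, ⟨hBo, ?_, hmap, ?_, ?_, ?_, ?_, ?_, ?_⟩, ?_, ?_⟩
  · -- smoothness
    have h1 : ContDiff ℝ ∞ (fun p : ℝ × V k => Q p.1 p.2) := by
      simp only [hQ]
      have h2 : ContDiff ℝ ∞ (fun p : ℝ × V k => (p.1, p.2 - c)) :=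
        contDiff_fst.prodMk (contDiff_snd.sub contDiff_const)
      exact (ro_smooth.comp h2).add contDiff_const
    have h3 : ContMDiff (𝓘(ℝ, ℝ).prod (𝓡 k)) 𝓘(ℝ, ℝ × V k) ∞ (fun p : ℝ × V k => (p.1, p.2)) :=
      contMDiff_fst.prodMk_space contMDiff_snd
    exact (h1.contMDiff.comp h3).contMDiffOn
  · intro v _
    simp only [hQ]
    rw [ro_zero h01, sub_add_cancel]
  · intro s t v _
    simp only [hQ]
    rw [add_sub_cancel_right, ro_add h01]
  · intro m v _
    simp only [hQ]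
    rw [ro_int h01, sub_add_cancel]
  · intro v hv
    have h2 : ContDiffAt ℝ ∞ (fun v : V k => zc i₀ i₁ (v - c)) v :=
      (zc_smooth.comp (contDiff_id.sub contDiff_const)).contDiffAt
    have h3 : zc i₀ i₁ (v - c) ≠ 0 := norm_pos_iff.1 hv.2.1
    have h4 : ContDiffAt ℝ ∞ (fun v : V k => ‖zc i₀ i₁ (v - c)‖) v := h2.norm ℝ h3
    have h5 : ContDiff ℝ ∞ (fun x : ℝ => (x : ℂ)) := Complex.ofRealCLM.contDiff
    have h6 : ContDiffAt ℝ ∞ (fun v : V k => ((‖zc i₀ i₁ (v - c)‖ : ℝ) : ℂ)) v :=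
      h5.contDiffAt.comp v h4
    have h7 : ContDiffAt ℝ ∞ α v := by
      have h8 : ((‖zc i₀ i₁ (v - c)‖ : ℝ) : ℂ) ≠ 0 := by
        exact_mod_cast norm_ne_zero_iff.2 h3
      have h9 := h2.mul (h6.inv h8)
      refine h9.congr_of_eventuallyEq (Eventually.of_forall fun w => ?_)
      simp only [hα, div_eq_mul_inv, Pi.inv_apply]
    exact h7.contMDiffAt.contMDiffWithinAt
  · intro v hv
    simp only [hα]
    rw [norm_div, Complex.norm_real, norm_norm, div_self hv.2.1.ne']
  · intro t v hv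
    simp only [hα]
    rw [hQc, zc_ro h01, norm_mul, hexp, one_mul, mul_div_assoc]
  · -- the origin
    have h0 : (0 : V k) - c = ρ • e₀ := by rw [hc]; simp
    have hz : zc i₀ i₁ (ρ • e₀) = (ρ : ℂ) := by
      simp [zc, he₀, h01.symm]
    refine ⟨?_, ?_, ?_⟩
    · rw [h0]
      have : q (ρ • e₀) = 0 := by
        simp [hq, he₀, he₁, h01.symm]
      rw [this, norm_zero]; exact hρ0
    · rw [h0, hz, Complex.norm_real, Real.norm_of_nonneg hρ0.le]; exact hρ0
    · rw [h0, hz, Complex.norm_real, Real.norm_of_nonneg hρ0.le]; linarith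
  · rintro v ⟨h1, h2, h3⟩
    set w : V k := v - c with hw
    have hz : zc i₀ i₁ w = (w i₀ : ℂ) + (w i₁ : ℂ) * Complex.I := rfl
    have hre : |w i₀| ≤ ‖zc i₀ i₁ w‖ := by
      have h4 : (zc i₀ i₁ w).re = w i₀ := by simp [zc]
      rw [← h4]
      exact Complex.abs_re_le_norm _
    have him : |w i₁| ≤ ‖zc i₀ i₁ w‖ := by
      have h4 : (zc i₀ i₁ w).im = w i₁ := by simp [zc]
      rw [← h4]
      exact Complex.abs_im_le_norm _
    have e : v = q w + w i₀ • e₀ + w i₁ • e₁ + c := by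
      simp only [hq, hw]
      abel
    rw [e]
    calc ‖q w + w i₀ • e₀ + w i₁ • e₁ + c‖ ≤ ‖q w‖ + ‖w i₀ • e₀‖ + ‖w i₁ • e₁‖ + ‖c‖ := by
          refine (norm_add_le _ _).trans ?_
          gcongr
          refine (norm_add_le _ _).trans ?_
          gcongr
          exact norm_add_le _ _
      _ = ‖q w‖ + |w i₀| + |w i₁| + ρ := by
          rw [norm_smul, norm_smul, hne₀, hne₁, mul_one, mul_one, Real.norm_eq_abs, Real.norm_eq_abs,
            hcn]
      _ < ρ + 2 * ρ + 2 * ρ + ρ := by linarith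
      _ ≤ ε := by rw [hρ]; linarith

end Pool.Agent.H247.SC
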