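import Pool.Agent.H247.SC.Prod

/-!
# Products with the identity of a manifold of dimension at least two: the closing lemma
-/

set_option autoImplicit false
set_option linter.unusedSectionVars false

open scoped Manifold ContDiff Topology ComplexConjugate
open Filter Set Metric

universe u v w

namespace Pool.Agent.H247.SC

open Pool.Agent.H718R2.G
open Pool.Agent.W564.SC hiding S_LOC S_NBHD S_CL0 S_CL S_PSI

section
variable {m k n : ℕ} {M : Type v} [TopologicalSpace M] [ChartedSpace (V m) M]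
  {Y : Type w} [TopologicalSpace Y] [ChartedSpace (V k) Y] [IsManifold (𝓡 k) ∞ Y]
  {N : Type u} [TopologicalSpace N] [T2Space N] [ChartedSpace (V n) N] [IsManifold (𝓡 n) ∞ N]

theorem circleOn_prod (Θ : Diffeomorph ((𝓡 m).prod (𝓡 k)) (𝓡 n) (M × Y) N ∞)
    {ψ : OpenPartialHomeomorph Y (V k)} (hψ : ψ ∈ IsManifold.maximalAtlas (𝓡 k) ∞ Y)
    {B : Set (V k)} {Q : ℝ → V k → V k} {α : V k → ℂ} (h : CircleOn k (V k) B Q α)
    (hB : B ⊆ ψ.target) :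
    CircleOn n N {w | (Θ.symm w).2 ∈ ψ.source ∧ ψ (Θ.symm w).2 ∈ B}
      (fun t w => Θ ((Θ.symm w).1, ψ.symm (Q t (ψ (Θ.symm w).2))))
      (fun w => α (ψ (Θ.symm w).2)) := by
  have hΘs : ∀ p, Θ.symm (Θ p) = p := fun p => Θ.symm_apply_apply p
  have hΘc : Continuous Θ.symm := Θ.symm.continuous
  have hψB : ∀ v ∈ B, ψ (ψ.symm v) = v := fun v hv => ψ.right_inv (hB hv)
  have hopen : IsOpen {w | (Θ.symm w).2 ∈ ψ.source ∧ ψ (Θ.symm w).2 ∈ B} := by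
    have h1 : IsOpen (ψ.source ∩ ψ ⁻¹' B) := ψ.isOpen_inter_preimage h.isOpen
    exact h1.preimage (continuous_snd.comp hΘc)
  have hch : ∀ w, (Θ.symm w).2 ∈ ψ.source → ContMDiffAt (𝓡 n) (𝓡 k) ∞
      (fun w => ψ (Θ.symm w).2) w := by
    intro w hw
    have h1 : ContMDiffAt (𝓡 k) (𝓡 k) ∞ ψ (Θ.symm w).2 := contMDiffAt_of_mem_maximalAtlas hψ hw
    have h2 : ContMDiffAt (𝓡 n) (𝓡 k) ∞ (fun w => (Θ.symm w).2) w :=
      ContMDiffAt.snd (Θ.symm.contMDiff w)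
    exact h1.comp w h2
  refine ⟨hopen, ?_, ?_, ?_, ?_, ?_, ?_, ?_, ?_⟩
  · rintro ⟨t, w⟩ ⟨-, hw1, hw2⟩
    apply ContMDiffAt.contMDiffWithinAt
    have c1 : ContMDiffAt (𝓘(ℝ, ℝ).prod (𝓡 n)) (𝓡 k) ∞
        (fun q : ℝ × N => ψ (Θ.symm q.2).2) (t, w) :=
      ContMDiffAt.comp (t, w) (g := fun w => ψ (Θ.symm w).2) (f := fun q : ℝ × N => q.2)
        (hch w hw1) contMDiffAt_snd
    have c2 : ContMDiffAt (𝓘(ℝ, ℝ).prod (𝓡 n)) (𝓘(ℝ, ℝ).prod (𝓡 k)) ∞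
        (fun q : ℝ × N => (q.1, ψ (Θ.symm q.2).2)) (t, w) := contMDiffAt_fst.prodMk c1
    have c3 : ContMDiffAt (𝓘(ℝ, ℝ).prod (𝓡 k)) (𝓡 k) ∞ (fun q : ℝ × V k => Q q.1 q.2)
        (t, ψ (Θ.symm w).2) :=
      h.smooth.contMDiffAt ((isOpen_univ.prod h.isOpen).mem_nhds ⟨mem_univ _, hw2⟩)
    have c4 : ContMDiffAt (𝓘(ℝ, ℝ).prod (𝓡 n)) (𝓡 k) ∞
        (fun q : ℝ × N => Q q.1 (ψ (Θ.symm q.2).2)) (t, w) :=
      ContMDiffAt.comp (t, w) (g := fun q : ℝ × V k => Q q.1 q.2)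
        (f := fun q : ℝ × N => (q.1, ψ (Θ.symm q.2).2)) c3 c2
    have c5 : ContMDiffAt (𝓡 k) (𝓡 k) ∞ ψ.symm (Q t (ψ (Θ.symm w).2)) :=
      contMDiffAt_symm_of_mem_maximalAtlas hψ (hB (h.maps t _ hw2))
    have c6 : ContMDiffAt (𝓘(ℝ, ℝ).prod (𝓡 n)) (𝓡 k) ∞
        (fun q : ℝ × N => ψ.symm (Q q.1 (ψ (Θ.symm q.2).2))) (t, w) :=
      ContMDiffAt.comp (t, w) (g := ψ.symm)
        (f := fun q : ℝ × N => Q q.1 (ψ (Θ.symm q.2).2)) c5 c4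
    have c7 : ContMDiffAt (𝓘(ℝ, ℝ).prod (𝓡 n)) (𝓡 m) ∞
        (fun q : ℝ × N => (Θ.symm q.2).1) (t, w) := by
      have d1 : ContMDiffAt (𝓡 n) (𝓡 m) ∞ (fun w => (Θ.symm w).1) w :=
        ContMDiffAt.fst (Θ.symm.contMDiff w)
      exact ContMDiffAt.comp (t, w) (g := fun w => (Θ.symm w).1) (f := fun q : ℝ × N => q.2)
        d1 contMDiffAt_snd
    have c8 : ContMDiffAt (𝓘(ℝ, ℝ).prod (𝓡 n)) ((𝓡 m).prod (𝓡 k)) ∞
        (fun q : ℝ × N => ((Θ.symm q.2).1, ψ.symm (Q q.1 (ψ (Θ.symm q.2).2)))) (t, w) :=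
      c7.prodMk c6
    exact ContMDiffAt.comp (t, w) (Θ.contMDiff _) c8
  · rintro t w ⟨hw1, hw2⟩
    have h1 := h.maps t _ hw2
    simp only [mem_ofPred_eq, hΘs]
    exact ⟨ψ.map_target (hB h1), by rw [hψB _ h1]; exact h1⟩
  · rintro w ⟨hw1, hw2⟩
    show Θ ((Θ.symm w).1, ψ.symm (Q 0 (ψ (Θ.symm w).2))) = w
    rw [h.zero _ hw2, ψ.left_inv hw1]
    exact Θ.apply_symm_apply w
  · rintro s t w ⟨hw1, hw2⟩
    simp only [hΘs]
    rw [hψB _ (h.maps t _ hw2), h.add _ _ _ hw2]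
  · rintro i w ⟨hw1, hw2⟩
    show Θ ((Θ.symm w).1, ψ.symm (Q (i : ℝ) (ψ (Θ.symm w).2))) = w
    rw [h.int _ _ hw2, ψ.left_inv hw1]
    exact Θ.apply_symm_apply w
  · rintro w ⟨hw1, hw2⟩
    apply ContMDiffAt.contMDiffWithinAt
    have c1 : ContMDiffAt (𝓡 k) 𝓘(ℝ, ℂ) ∞ α (ψ (Θ.symm w).2) :=
      h.smooth_a.contMDiffAt (h.isOpen.mem_nhds hw2)
    exact ContMDiffAt.comp w c1 (hch w hw1)
  · rintro w ⟨hw1, hw2⟩
    exact h.norm_a _ hw2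
  · rintro t w ⟨hw1, hw2⟩
    simp only [hΘs]
    rw [hψB _ (h.maps t _ hw2), h.equiv _ _ hw2]

/-- **Two neutral dimensions suffice.** -/
theorem product_closing (hk : 2 ≤ k) {r : ℕ∞} (hr : 1 ≤ r)
    (Θ : Diffeomorph ((𝓡 m).prod (𝓡 k)) (𝓡 n) (M × Y) N ∞) (F : DiffM n N r) (f : M → M)
    (hF : ∀ x y, F (Θ (x, y)) = Θ (f x, y)) (x : M) (y : Y) (hnw : NonWand F (Θ (x, y)))
    (W : Set N) (hW : W ∈ 𝓝 (Θ (x, y))) : ClosableIn n N r F (Θ (x, y)) W := by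
  obtain ⟨W', hW'W, hW'o, hzW'⟩ := mem_nhds_iff.1 hW
  obtain ⟨ψ, hψ⟩ := Pool.Agent.W699.SC.gc k Y y
  have h0t : (0 : V k) ∈ ψ.target := hψ.ball (mem_closedBall_self (by norm_num))
  have hy0 : ψ.symm (0 : V k) = y := by rw [← hψ.zero]; exact ψ.left_inv hψ.src
  have hcont : ContinuousAt (fun v : V k => Θ (x, ψ.symm v)) 0 := by
    have h1 : ContinuousAt ψ.symm (0 : V k) := ψ.continuousAt_symm h0t
    exact (Θ.continuous.continuousAt).comp (continuousAt_const.prodMk h1)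
  have hev : ∀ᶠ v : V k in 𝓝 0, Θ (x, ψ.symm v) ∈ W' := by
    apply hcont.eventually
    show W' ∈ 𝓝 (Θ (x, ψ.symm 0))
    rw [hy0]
    exact hW'o.mem_nhds hzW'
  obtain ⟨ε, hε, hball⟩ := Metric.eventually_nhds_iff_ball.1 hev
  obtain ⟨B, Q, α, hc, h0B, hBε⟩ := exists_model hk (lt_min hε one_pos)
  have hBt : B ⊆ ψ.target := by
    intro v hv
    apply hψ.ball
    rw [mem_closedBall, dist_zero_right]
    exact (hBε v hv).le.trans (min_le_right _ _)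
  have hci := circleOn_prod (N := N) (M := M) Θ hψ.mem hc hBt
  have hΘs : ∀ p, Θ.symm (Θ p) = p := fun p => Θ.symm_apply_apply p
  have hFs : ∀ w, Θ.symm (F w) = (f (Θ.symm w).1, (Θ.symm w).2) := by
    intro w
    have h1 : F w = Θ (f (Θ.symm w).1, (Θ.symm w).2) := by
      rw [← hF]
      congr 1
      exact (Θ.apply_symm_apply w).symm
    rw [h1, hΘs]
  have key : ClosableIn n N r F (Θ (x, y)) W' := by
    refine circle_closing hr hci F ⟨?_, ?_, ?_⟩ (z := Θ (x, y)) ?_ hnw hW'o ?_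
    · rintro w ⟨hw1, hw2⟩
      simp only [mem_ofPred_eq, hFs]
      exact ⟨hw1, hw2⟩
    · rintro t w ⟨hw1, hw2⟩
      simp only [hFs]
      exact hF _ _
    · rintro w ⟨hw1, hw2⟩
      simp only [hFs]
    · simp only [mem_ofPred_eq, hΘs]
      refine ⟨hψ.src, ?_⟩
      rw [hψ.zero]
      exact h0B
    · intro t
      simp only [hΘs]
      rw [hψ.zero]
      apply hball
      rw [mem_ball, dist_zero_right]
      exact (hBε _ (hc.maps t _ h0B)).trans_le (min_le_left _ _)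
  intro U hU hFU
  obtain ⟨G, hG, hper, hs⟩ := key U hU hFU
  exact ⟨G, hG, hper, fun y h1 h2 => hs y (fun h3 => h1 (hW'W h3)) (fun h3 => h2 (hW'W h3))⟩

end

end Pool.Agent.H247.SC
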