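import Pool.Agent.H247.SC.Prod2
import Pool.Graph.R_seed8.Y271.CP.Defs

/-!
# Definitions for the statements of the hand-ins
-/

set_option autoImplicit false

open scoped Manifold ContDiff Topology

namespace Pool.Agent.H247.SC

open Pool.Agent.H718R2.G Pool.Agent.W564.SC
open Pool.Agent.Y271.CP (ProdDiffeo atP)

/-- The conclusion of the local `C^r` closing lemma at `z`: for every neighbourhood `W` of `z`, every
neighbourhood `U` of `F` in `Diff^r(N)` with the strong topology contains some `G` for which `z` is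
periodic and which is equal to `F` outside of `W` and `F⁻¹(W)`. -/
def LocallyClosable (n : ℕ) (N : Type*) [TopologicalSpace N] [ChartedSpace (V n) N] (r : ℕ∞)
    (F : DiffM n N r) (z : N) : Prop :=
  ∀ W ∈ 𝓝 z, ∀ U : Set (DiffM n N r), IsOpen[strongTop n N r] U → F ∈ U →
    ∃ G ∈ U, IsPer G z ∧ ∀ w, w ∉ W → F w ∉ W → G w = F w

/-- In the coordinates given by `Θ : M × K → N` the map `F` is `f × id` for some map `f` of `M`. -/
def TimesId {m k n : ℕ} {M : Type*} [TopologicalSpace M] [ChartedSpace (V m) M]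
    {K : Type*} [TopologicalSpace K] [ChartedSpace (V k) K] {N : Type*} [TopologicalSpace N]
    [ChartedSpace (V n) N] (Θ : ProdDiffeo m k n M K N) (F : N → N) : Prop :=
  ∃ f : M → M, ∀ x y, F (atP Θ x y) = atP Θ (f x) y

theorem two_neutral {m k n : ℕ} (hk : 2 ≤ k) {M : Type*} [TopologicalSpace M] [ChartedSpace (V m) M]
    {K : Type*} [TopologicalSpace K] [ChartedSpace (V k) K] [IsManifold (𝓡 k) ∞ K]
    {N : Type*} [TopologicalSpace N] [T2Space N] [ChartedSpace (V n) N] [IsManifold (𝓡 n) ∞ N]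
    (r : ℕ∞) (hr : 1 ≤ r) (Θ : ProdDiffeo m k n M K N)
    (F : DiffM n N r) (hF : TimesId Θ F) (z : N)
    (hz : NonWand F z ∨ IsRec F.toHomeomorph z) : LocallyClosable n N r F z := by
  obtain ⟨f, hf⟩ := hF
  obtain ⟨⟨x, y⟩, rfl⟩ := Θ.surjective z
  intro W hW
  have hnw : NonWand F (Θ (x, y)) := by
    rcases hz with h | h
    · exact h
    · exact nonWand_of_isRec F.toHomeomorph _ h
  exact product_closing hk hr Θ F f hf x y hnw W hW

end Pool.Agent.H247.SC
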